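import Mathlib

/-! Averages over the subsets of a finite set. -/

namespace Pool.Agent.H.MP_e96620_co
open Finset Classical

variable {F G : Finset ℕ} {φ ψ : Finset ℕ → ℝ} {a : ℝ}

noncomputable def ind (q : Prop) : ℝ := if q then 1 else 0

lemma ind0 (q : Prop) : 0 ≤ ind q := by unfold ind; split_ifs <;> simp

lemma ind_le {p q : Prop} (h : p → q) : ind p ≤ ind q := by
  unfold ind; split_ifs <;> simp_all

lemma ind_and (p q : Prop) : ind (p ∧ q) = ind p * ind q := by
  unfold ind; split_ifs <;> simp_all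

noncomputable def Ex (F : Finset ℕ) (φ : Finset ℕ → ℝ) : ℝ := (∑ R ∈ F.powerset, φ R) / 2 ^ F.card

lemma Ex_mono (h : ∀ R ⊆ F, φ R ≤ ψ R) : Ex F φ ≤ Ex F ψ :=
  div_le_div_of_nonneg_right (sum_le_sum fun R hR => h R (mem_powerset.mp hR)) (by positivity)

lemma Ex_const (a : ℝ) : Ex F (fun _ => a) = a := by simp [Ex]

lemma Ex_le (h : ∀ R ⊆ F, φ R ≤ a) : Ex F φ ≤ a := (Ex_mono h).trans (Ex_const a).le

lemma Ex0 (h : ∀ R, 0 ≤ φ R) : 0 ≤ Ex F φ := (Ex_const 0).ge.trans (Ex_mono fun R _ => h R)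

lemma Ex_add : Ex F (fun R => φ R + ψ R) = Ex F φ + Ex F ψ := by simp [Ex, sum_add_distrib, add_div]

lemma Ex_mul (a : ℝ) : Ex F (fun R => a * φ R) = a * Ex F φ := by simp [Ex, ← mul_sum, mul_div_assoc]

lemma Ex_sum (s : Finset ℕ) (φ : ℕ → Finset ℕ → ℝ) :
    Ex F (fun R => ∑ v ∈ s, φ v R) = ∑ v ∈ s, Ex F (φ v) := by
  simp only [Ex, ← sum_div]
  rw [sum_comm]

lemma Ex_split (h : G ⊆ F) : Ex F φ = Ex (F \ G) fun Q => Ex G fun R => φ (Q ∪ R) := by
  simp only [Ex, ← sum_div, div_div, ← pow_add, add_comm G.card, card_sdiff_add_card_eq_card h]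
  rw [← sum_product']
  refine congrArg (· / _) (sum_nbij' (fun R => (R \ G, R ∩ G)) (fun q => q.1 ∪ q.2) ?_ ?_ ?_ ?_ ?_)
  all_goals simp only [mem_product, mem_powerset, Prod.forall, Prod.mk.injEq]
  all_goals grind [sdiff_union_inter]

lemma cond {w : Finset ℕ → ℝ} (h : G ⊆ F) (w0 : ∀ R, 0 ≤ w R)
    (hw : ∀ Q ⊆ F \ G, ∀ R ⊆ G, w (Q ∪ R) = w Q)
    (ha : ∀ Q ⊆ F \ G, w Q ≠ 0 → Ex G (fun R => φ (Q ∪ R)) ≤ a) :
    Ex F (fun R => w R * φ R) ≤ a * Ex F w := by
  rw [Ex_split h, Ex_split h, ← Ex_mul]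
  refine Ex_mono fun Q hQ => ?_
  have e : ∀ θ : Finset ℕ → ℝ, Ex G (fun R => w (Q ∪ R) * θ R) = w Q * Ex G θ := fun θ => by
    rw [← Ex_mul]
    exact le_antisymm (Ex_mono fun R hR => by rw [hw Q hQ R hR])
      (Ex_mono fun R hR => by rw [hw Q hQ R hR])
  have := e fun _ => 1
  simp only [mul_one, Ex_const] at this
  rw [e, this, mul_comm]
  by_cases c : w Q = 0
  · simp [c]
  · exact mul_le_mul_of_nonneg_right (ha Q hQ c) (w0 Q)

lemma Ex_image {f : ℕ → ℕ} (i : Set.InjOn f F) : Ex (F.image f) φ = Ex F fun R => φ (R.image f) := by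
  rw [Ex, Ex, card_image_of_injOn i, powerset_image, sum_image]
  exact fun R hR R' hR' e => by
    simp only [coe_powerset, Set.mem_preimage, Set.mem_powerset_iff] at hR hR'
    exact coe_injective ((i.image_eq_image_iff hR hR').mp (by simpa using congrArg SetLike.coe e))

lemma Ex_ins {l : ℕ} (h : l ∉ F) : Ex (insert l F) φ = (Ex F φ + Ex F fun R => φ (insert l R)) / 2 := by
  simp only [Ex, sum_powerset_insert h, card_insert_of_notMem h, pow_succ]
  ring

lemma half {E : Finset ℕ → Prop} {l : ℕ} (h : l ∈ F)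
    (k : ∀ R ⊆ F.erase l, ¬ (E R ∧ E (insert l R))) : Ex F (fun R => ind (E R)) ≤ 1 / 2 := by
  rw [← insert_erase h, Ex_ins (notMem_erase _ _), ← Ex_add]
  refine div_le_div_of_nonneg_right (Ex_le fun R hR => ?_) two_pos.le
  have := k R hR
  unfold ind
  split_ifs <;> simp_all

lemma cb (m : ℕ) : m.centralBinom ^ 2 * (2 * m + 1) ≤ 16 ^ m := by
  induction m with
  | zero => simp
  | succ m ih =>
    have h := m.succ_mul_centralBinom_succ
    refine Nat.le_of_mul_le_mul_left ?_ (show 0 < (m + 1) ^ 2 by positivity)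
    calc _ = ((m + 1) * (m + 1).centralBinom) ^ 2 * (2 * m + 3) := by ring
      _ = 4 * (2 * m + 1) * (2 * m + 3) * (m.centralBinom ^ 2 * (2 * m + 1)) := by rw [h]; ring
      _ ≤ 16 * (m + 1) ^ 2 * 16 ^ m := Nat.mul_le_mul (by nlinarith) ih
      _ = _ := by ring

lemma psi {t : ℕ} (t0 : 0 < t) (h : t ^ 2 ≤ F.card) {E : Finset ℕ → Prop} {m : ℕ}
    (k : ∀ R ⊆ F, E R → R.card = m) : Ex F (fun R => ind (E R)) ≤ 1 / t := by
  refine (Ex_mono fun R hR => ind_le (k R hR)).trans ?_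
  have e : ∑ R ∈ F.powerset, ind (R.card = m) = F.card.choose m := by
    rw [← card_powersetCard, powersetCard_eq_filter, card_filter]
    push_cast
    exact sum_congr rfl fun _ _ => by unfold ind; split_ifs <;> rfl
  have : (t * F.card.choose m) ^ 2 ≤ (2 ^ F.card) ^ 2 := by
    generalize F.card = f at *
    obtain ⟨n, rfl | rfl⟩ := f.even_or_odd'
    · have h1 := Nat.choose_le_centralBinom m n
      calc _ ≤ (2 * n + 1) * n.centralBinom ^ 2 := by rw [mul_pow]; gcongr; omega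
        _ ≤ 16 ^ n := (mul_comm _ _).trans_le (cb n)
        _ = _ := by rw [← pow_mul, mul_right_comm, pow_mul]; norm_num
    · have : (2 * n + 1).choose m ≤ 2 * n.centralBinom := by
        have := Nat.choose_le_centralBinom m n
        have := Nat.choose_le_centralBinom (m - 1) n
        rcases m with _ | m
        · simp
          linarith [n.centralBinom_pos]
        · rw [Nat.choose_succ_succ']
          simp at *
          omega
      calc _ ≤ (2 * n + 1) * (2 * n.centralBinom) ^ 2 := by rw [mul_pow]; gcongr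
        _ = 4 * (n.centralBinom ^ 2 * (2 * n + 1)) := by ring
        _ ≤ 4 * 16 ^ n := by gcongr; exact cb n
        _ = _ := by rw [show 16 = 2 ^ 4 by norm_num, ← pow_mul]; ring
  rw [Ex, e, div_le_div_iff₀ (by positivity) (by positivity), one_mul, mul_comm]
  exact_mod_cast (Nat.pow_le_pow_iff_left two_ne_zero).mp this

lemma tail (m : ℕ) : Ex F (fun R => ind (R.card ≤ m)) ≤ 2 ^ m * (3 / 4) ^ F.card := by
  have : Ex F (fun R => (1 / 2) ^ R.card) = (3 / 4) ^ F.card := by
    have := sum_pow_mul_eq_add_pow (1 / 2 : ℝ) 1 F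
    simp only [one_pow, mul_one] at this
    rw [Ex, this, ← div_pow]
    norm_num
  rw [← this, ← Ex_mul]
  refine Ex_mono fun R _ => ?_
  unfold ind
  split_ifs with c
  · rw [one_div, inv_pow, ← div_eq_mul_inv, one_le_div (by positivity)]
    gcongr
    norm_num
  · positivity

lemma uniq {E : Finset ℕ → Prop} (s : Finset (Finset ℕ)) (k : ∀ R ⊆ F, E R → R ∈ s) :
    Ex F (fun R => ind (E R)) ≤ s.card / 2 ^ F.card := by
  refine div_le_div_of_nonneg_right ?_ (by positivity)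
  simp only [ind, sum_boole, Nat.cast_le]
  exact card_le_card (by grind)

end Pool.Agent.H.MP_e96620_co
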