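import Pool.Agent.H.MP_e96620_co.A

/-! The first class that contains two chosen points. -/

namespace Pool.Agent.H.MP_e96620_co
open Finset Classical Real

variable {A F X : Finset ℕ} {cl : ℕ → ℕ} {N v : ℕ}

def cnt (cl : ℕ → ℕ) (X : Finset ℕ) (v : ℕ) : ℕ := (X.filter fun y => cl y = v).card

def Vv (cl : ℕ → ℕ) (N : ℕ) (X : Finset ℕ) (v : ℕ) : Prop :=
  (v ≠ 0 → 2 ≤ cnt cl X v) ∧ ∀ u, v < u → u ≤ N → cnt cl X u ≤ 1

def lost (cl : ℕ → ℕ) (A F : Finset ℕ) (N v : ℕ) : ℕ :=
  (F.filter fun y => v < cl y ∧ cl y ≤ N ∧ 2 ≤ cnt cl (A ∪ F) (cl y)).card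

lemma Vex (cl : ℕ → ℕ) (N : ℕ) (X : Finset ℕ) : ∃ v ≤ N, Vv cl N X v :=
  ⟨_, Nat.findGreatest_le (P := fun v => 2 ≤ cnt cl X v) N, fun h =>
    Nat.findGreatest_of_ne_zero (P := fun v => 2 ≤ cnt cl X v) rfl h, fun _ h1 h2 => Nat.le_of_lt_succ
      (not_le.mp (Nat.findGreatest_is_greatest (P := fun v => 2 ≤ cnt cl X v) h1 h2))⟩

lemma Vun {u : ℕ} (h : Vv cl N X v) (h' : Vv cl N X u) (hv : v ≤ N) (hu : u ≤ N) : v = u := by
  unfold Vv at *
  grind

lemma Vsum {C : ℕ → Prop} {Z : Finset ℕ} (hZ : ∀ v ∈ Z, v ≤ N) (h : ∀ v, C v → Vv cl N X v) :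
    ∑ v ∈ Z, ind (C v) ≤ ind (∃ v ∈ Z, C v) := by
  by_cases c : ∃ v ∈ Z, C v
  · obtain ⟨v, hv, c⟩ := c
    rw [sum_eq_single_of_mem (f := fun v => ind (C v)) v hv fun u hu n => if_neg fun k =>
      n (Vun (h u k) (h v c) (hZ u hu) (hZ v hv))]
    exact ind_le fun _ => ⟨v, hv, c⟩
  · exact (sum_eq_zero fun v hv => if_neg fun k => c ⟨v, hv, k⟩).le.trans (ind0 _)

lemma cnt_un {Q R : Finset ℕ} {u : ℕ} (h : ∀ y ∈ R, cl y ≠ u) :
    cnt cl (A ∪ (Q ∪ R)) u = cnt cl (A ∪ Q) u :=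
  congrArg card (by grind)

lemma e32 : exp (1 / 32) ≤ 32 / 31 := by
  have := add_one_le_exp (-(1 / 32))
  rw [exp_neg, le_inv_comm₀ (by norm_num) (exp_pos _)] at this
  linarith

lemma few (d : Disjoint A F) (u : ℕ) (h : 2 ≤ cnt cl (A ∪ F) u)
    (n : (F.filter fun y => cl y = u).card ≠ 0) :
    exp ((F.filter fun y => cl y = u).card / 32) *
      Ex (F.filter fun y => cl y = u) (fun R => ind (cnt cl (A ∪ R) u ≤ 1)) ≤ 9 / 10 := by
  set G := F.filter fun y => cl y = u with hG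
  have k : ∀ R ⊆ G, cnt cl (A ∪ R) u = cnt cl A u + R.card := fun R hR => by
    rw [cnt, filter_union, card_union_of_disjoint (disjoint_filter_filter
      (d.mono_right (hR.trans (filter_subset _ _)))),
      filter_true_of_mem fun y hy => (mem_filter.mp (hR hy)).2]
    rfl
  have e : exp (G.card / 32) ≤ (32 / 31) ^ G.card := by
    rw [div_eq_mul_one_div, exp_nat_mul]
    gcongr
    exact e32
  by_cases c : G.card = 1
  · have : cnt cl (A ∪ F) u = cnt cl (A ∪ G) u := congrArg card (by grind)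
    have := k G subset_rfl
    have := uniq (F := G) (E := fun R => cnt cl (A ∪ R) u ≤ 1) {∅} fun R hR q => by
      rw [mem_singleton, ← card_eq_zero]
      have := k R hR
      omega
    refine (mul_le_mul e this (Ex0 fun _ => ind0 _) (by positivity)).trans ?_
    norm_num [c]
  have := uniq (F := G) (E := fun R => cnt cl (A ∪ R) u ≤ 1) (insert ∅ (G.image singleton))
    fun R hR q => by
      rw [k R hR] at q
      obtain ⟨x, hx⟩ := card_le_one_iff_subset_singleton.mp (show R.card ≤ 1 by omega)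
      grind [subset_singleton_iff]
  refine (mul_le_mul e (this.trans (show _ ≤ (G.card + 1 : ℝ) / 2 ^ G.card by
    gcongr; exact_mod_cast (card_insert_le _ _).trans (Nat.succ_le_succ card_image_le)))
    (Ex0 fun _ => ind0 _) (by positivity)).trans ?_
  have : 2 ≤ G.card := by omega
  generalize G.card = m at this
  induction m, this using Nat.le_induction with
  | base => norm_num
  | succ m h ih =>
    refine le_trans ?_ ih
    have : (2 : ℝ) ≤ m := by exact_mod_cast h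
    rw [pow_succ, pow_succ, mul_assoc]
    gcongr
    rw [mul_div_assoc', div_le_div_iff₀ (by positivity) (by positivity)]
    push_cast
    nlinarith [mul_le_mul_of_nonneg_right this (show (0 : ℝ) ≤ 2 ^ m by positivity),
      show (0 : ℝ) ≤ 2 ^ m by positivity]

lemma lostL (d : Disjoint A F) (N : ℕ) : ∑ v ∈ range (N + 1), exp (lost cl A F N v / 32) *
    Ex F (fun R => ind (Vv cl N (A ∪ R) v)) ≤ 10 := by
  induction N with
  | zero =>
    have : lost cl A F 0 0 = 0 := card_eq_zero.mpr (filter_eq_empty_iff.mpr (by omega))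
    simp only [this, zero_add, range_one, sum_singleton, Nat.cast_zero, zero_div, exp_zero, one_mul]
    exact Ex_le fun _ _ => by unfold ind; split_ifs <;> norm_num
  | succ N ih =>
  set G := F.filter fun y => cl y = N + 1 with hG
  set x := Ex G fun R => ind (cnt cl (A ∪ R) (N + 1) ≤ 1) with hx
  have k : ∀ Q ⊆ F \ G, ∀ R, cnt cl (A ∪ (Q ∪ R)) (N + 1) = cnt cl (A ∪ R) (N + 1) :=
    fun Q hQ R => union_comm R Q ▸ cnt_un (by grind)
  obtain ⟨n, n1, n2⟩ : ∃ n : ℕ, (∀ v ≤ N, lost cl A F (N + 1) v ≤ lost cl A F N v + n) ∧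
      (n = 0 ∨ exp (n / 32) * x ≤ 9 / 10) := by
    by_cases c : 2 ≤ cnt cl (A ∪ F) (N + 1)
    · exact ⟨G.card, fun v _ => (card_le_card (by grind)).trans (card_union_le _ _),
        or_iff_not_imp_left.mpr (few d _ c)⟩
    · exact ⟨0, fun v _ => card_le_card (by grind), Or.inl rfl⟩
  have h1 : Ex F (fun R => ind (Vv cl (N + 1) (A ∪ R) (N + 1))) ≤ 1 - x := by
    rw [Ex_split (filter_subset _ _ : G ⊆ F)]
    refine Ex_le fun Q hQ => ?_
    rw [le_sub_iff_add_le, hx, ← Ex_add]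
    refine Ex_le fun R _ => ?_
    unfold ind
    split_ifs with c1 c2 <;> norm_num
    have := c1.1 (by simp)
    rw [k Q hQ] at this
    omega
  have h2 : ∀ v ∈ range (N + 1), exp (lost cl A F (N + 1) v / 32) *
      Ex F (fun R => ind (Vv cl (N + 1) (A ∪ R) v)) ≤ exp (n / 32) * x *
        (exp (lost cl A F N v / 32) * Ex F fun R => ind (Vv cl N (A ∪ R) v)) := fun v hv => by
    rw [mem_range] at hv
    have := cond (φ := fun R => ind (cnt cl (A ∪ R) (N + 1) ≤ 1)) (a := x)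
      (w := fun R => ind (Vv cl N (A ∪ R) v)) (filter_subset _ _ : G ⊆ F) (fun _ => ind0 _)
      (fun Q _ R hR => by
        have : ∀ u ≤ N, cnt cl (A ∪ (Q ∪ R)) u = cnt cl (A ∪ Q) u := fun u hu => cnt_un (by grind)
        exact congrArg ind (by unfold Vv; grind))
      fun Q hQ _ => by simp only [k Q hQ]; rfl
    rw [mul_mul_mul_comm, ← exp_add]
    refine mul_le_mul (exp_le_exp.mpr ?_) ((Ex_mono fun R _ => ?_).trans this)
      (Ex0 fun _ => ind0 _) (exp_pos _).le
    · have : (lost cl A F (N + 1) v : ℝ) ≤ lost cl A F N v + n := by exact_mod_cast n1 v (by omega)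
      linarith
    · rw [← ind_and]
      exact ind_le fun h => ⟨⟨h.1, fun u a b => h.2 u a (by omega)⟩, h.2 _ hv le_rfl⟩
  have h3 : lost cl A F (N + 1) (N + 1) = 0 :=
    card_eq_zero.mpr (filter_eq_empty_iff.mpr (by omega))
  have x0 : 0 ≤ x := Ex0 fun _ => ind0 _
  have h4 := (sum_le_sum h2).trans ((mul_sum _ _ _).ge.trans
    (mul_le_mul_of_nonneg_left ih (by positivity)))
  rw [sum_range_succ, h3]
  have x1 : x ≤ 1 := Ex_le fun _ _ => by unfold ind; split_ifs <;> norm_num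
  rcases n2 with rfl | n2 <;> simp at * <;> linarith

end Pool.Agent.H.MP_e96620_co
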