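import Pool.Agent.H.MP_e96620_co.B

/-! The main probabilistic step. -/

namespace Pool.Agent.H.MP_e96620_co
open Finset Classical Real

variable {A F X : Finset ℕ} {cl : ℕ → ℕ} {N v : ℕ}

def up (cl : ℕ → ℕ) (X : Finset ℕ) (v : ℕ) : ℕ := (X.filter fun y => v < cl y).card

def Hv (cl : ℕ → ℕ) (X : Finset ℕ) (v : ℕ) : Finset ℕ := X.filter fun y => cl y < v

def Sg (cl : ℕ → ℕ) (A F : Finset ℕ) (v : ℕ) : Finset ℕ :=
  F.filter fun y => v < cl y ∧ cnt cl (A ∪ F) (cl y) ≤ 1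

lemma three (cl : ℕ → ℕ) (X : Finset ℕ) (v : ℕ) :
    X.card = up cl X v + cnt cl X v + (Hv cl X v).card := by
  simp only [up, cnt, Hv, card_filter, ← sum_add_distrib]
  rw [card_eq_sum_ones]
  exact sum_congr rfl fun _ _ => by split_ifs <;> omega

lemma fil_un {R : Finset ℕ} (d : Disjoint A R) (p : ℕ → Prop) [DecidablePred p] :
    ((A ∪ R).filter p).card = (A.filter p).card + (R.filter p).card := by
  rw [filter_union, card_union_of_disjoint (disjoint_filter_filter d)]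

lemma ind1 (q : Prop) : ind q ≤ 1 := by unfold ind; split_ifs <;> simp

lemma K1 {C : Finset ℕ → Prop} : Ex F (fun R => ind (Vv cl N (A ∪ R) v ∧ C (Hv cl R v))) ≤
    Ex (Hv cl F v) (fun R => ind (C R)) * Ex F fun R => ind (Vv cl N (A ∪ R) v) := by
  simp only [ind_and]
  refine cond (filter_subset _ _) (fun _ => ind0 _) (fun Q _ R hR => ?_) fun Q hQ _ =>
    Ex_mono fun R hR => ?_
  · have : ∀ u, v ≤ u → cnt cl (A ∪ (Q ∪ R)) u = cnt cl (A ∪ Q) u := fun u hu =>
      cnt_un (by grind [Hv])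
    exact congrArg ind (by unfold Vv; grind)
  · rw [show Hv cl (Q ∪ R) v = R by grind [Hv]]

lemma KT {C M : Finset ℕ → Prop} {p : ℝ} (p0 : 0 ≤ p) (h : ∀ Q ⊆ F \ Sg cl A F v,
      Vv cl N (A ∪ Q) v → Ex (Sg cl A F v) (fun R => ind (M (A ∪ (Q ∪ R)))) ≤ p) :
    Ex F (fun R => ind (Vv cl N (A ∪ R) v ∧ C (Hv cl R v)) * ind (M (A ∪ R))) ≤
      p * (Ex (Hv cl F v) (fun R => ind (C R)) * Ex F fun R => ind (Vv cl N (A ∪ R) v)) := by
  refine (cond (filter_subset _ _ : Sg cl A F v ⊆ F) (fun _ => ind0 _) (fun Q hQ R hR => ?_)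
    fun Q hQ n => h Q hQ (by_contra fun c => n (if_neg fun k => c k.1))).trans
    (mul_le_mul_of_nonneg_left K1 p0)
  have : ∀ u, v ≤ u → cnt cl (A ∪ (Q ∪ R)) u = cnt cl (A ∪ Q) u ∨
      v < u ∧ cnt cl (A ∪ (Q ∪ R)) u ≤ 1 ∧ cnt cl (A ∪ Q) u ≤ 1 := fun u hu => by
    refine or_iff_not_imp_left.mpr fun n => ?_
    obtain ⟨y, hy, rfl⟩ : ∃ y ∈ R, cl y = u := by_contra fun c => n (cnt_un (by simpa using c))
    have := (mem_filter.mp (hR hy)).2
    exact ⟨this.1, (card_le_card (by grind [Sg])).trans this.2,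
      (card_le_card (by grind [Sg])).trans this.2⟩
  rw [show Hv cl (Q ∪ R) v = Hv cl Q v by grind [Hv, Sg]]
  exact congrArg ind (by unfold Vv; grind)

lemma pis : ∑ v ∈ range (N + 1), Ex F (fun R => ind (Vv cl N (A ∪ R) v)) ≤ 1 := by
  rw [← Ex_sum]
  exact Ex_le fun R _ => (Vsum (by simp) fun _ => id).trans (ind1 _)

lemma alpha {M : Finset ℕ → Prop} {K : ℕ} {B E : ℝ} (d : Disjoint A F) (B0 : 0 ≤ B) (E0 : 0 ≤ E)
    (h : ∀ R ⊆ F, ∀ v ≤ N, M (A ∪ R) → Vv cl N (A ∪ R) v → (Hv cl R v).card ≤ K)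
    (hT : ∀ v ≤ N, ∀ Q ⊆ F \ Sg cl A F v, Vv cl N (A ∪ Q) v →
      Ex (Sg cl A F v) (fun R => ind (M (A ∪ (Q ∪ R)))) ≤
        B + E * exp ((2 * (Hv cl F v).card + lost cl A F N v) / 32)) :
    Ex F (fun R => ind (M (A ∪ R))) ≤ B + E * 2 ^ K * 10 := by
  calc _ ≤ Ex F fun R => ∑ v ∈ range (N + 1),
        ind (Vv cl N (A ∪ R) v ∧ (Hv cl R v).card ≤ K) * ind (M (A ∪ R)) := Ex_mono fun R hR => by
        obtain ⟨v, hv, k⟩ := Vex cl N (A ∪ R)
        refine le_trans ?_ (single_le_sum (fun _ _ => mul_nonneg (ind0 _) (ind0 _))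
          (mem_range.mpr (Nat.lt_succ_of_le hv)))
        rw [← ind_and]
        exact ind_le fun m => ⟨⟨k, h R hR v hv m k⟩, m⟩
    _ ≤ ∑ v ∈ range (N + 1), (B * Ex F (fun R => ind (Vv cl N (A ∪ R) v)) + E * 2 ^ K *
        (exp (lost cl A F N v / 32) * Ex F fun R => ind (Vv cl N (A ∪ R) v))) := by
        rw [Ex_sum]
        refine sum_le_sum fun v hv => (KT (C := fun R => R.card ≤ K) (by positivity)
          (hT v (Nat.le_of_lt_succ (mem_range.mp hv)))).trans ?_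
        have h1 := tail (F := Hv cl F v) K
        have h2 : Ex (Hv cl F v) (fun R => ind (R.card ≤ K)) ≤ 1 := Ex_le fun _ _ => ind1 _
        have h3 : exp (2 * (Hv cl F v).card / 32) * (3 / 4) ^ (Hv cl F v).card ≤ 1 := by
          rw [show (2 * (Hv cl F v).card / 32 : ℝ) = (Hv cl F v).card * (1 / 32 + 1 / 32) by ring,
            exp_nat_mul, ← mul_pow, exp_add]
          exact pow_le_one₀ (by positivity) (by nlinarith [e32, exp_pos (1 / 32)])
        rw [← mul_assoc, ← mul_assoc, ← add_mul, add_div, exp_add]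
        refine mul_le_mul_of_nonneg_right ?_ (Ex0 fun _ => ind0 _)
        calc _ ≤ B * 1 + E * (exp (2 * (Hv cl F v).card / 32) * exp (lost cl A F N v / 32)) *
              (2 ^ K * (3 / 4) ^ (Hv cl F v).card) := by rw [add_mul]; gcongr
          _ = B + E * 2 ^ K * exp (lost cl A F N v / 32) *
              (exp (2 * (Hv cl F v).card / 32) * (3 / 4) ^ (Hv cl F v).card) := by ring
          _ ≤ _ := add_le_add_right (mul_le_of_le_one_right (by positivity) h3) _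
    _ ≤ _ := by
        rw [sum_add_distrib, ← mul_sum, ← mul_sum]
        exact add_le_add (mul_le_of_le_one_right B0 pis)
          (mul_le_mul_of_nonneg_left (lostL d N) (by positivity))

/-- Zone sums for the case that the top part is kept. -/
lemma zoneT {M : Finset ℕ → Prop} {t : ℕ} {B E : ℝ} {m : ℕ → ℕ} (d : Disjoint A F) (B0 : 0 ≤ B)
    (E0 : 0 ≤ E) (t0 : 0 < t) (p : ℕ → Prop) [DecidablePred p] (h : ∀ v, p v → t ^ 2 ≤ (Hv cl F v).card)
    (hT : ∀ v ≤ N, p v → ∀ Q ⊆ F \ Sg cl A F v, Vv cl N (A ∪ Q) v →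
      Ex (Sg cl A F v) (fun R => ind (M (A ∪ (Q ∪ R)))) ≤ B + E * exp (lost cl A F N v / 32)) :
    Ex F (fun R => ∑ v ∈ (range (N + 1)).filter p, ind (Vv cl N (A ∪ R) v ∧
      ((Hv cl R v).card = m v ∨ (Hv cl R v).card = 0)) * ind (M (A ∪ R))) ≤
      2 / t * (B + E * 10) := by
  rw [Ex_sum]
  calc _ ≤ ∑ v ∈ (range (N + 1)).filter p, 2 / t * (B * Ex F (fun R => ind (Vv cl N (A ∪ R) v)) + E *
        (exp (lost cl A F N v / 32) * Ex F fun R => ind (Vv cl N (A ∪ R) v))) :=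
        sum_le_sum fun v hv => by
          rw [mem_filter, mem_range] at hv
          refine (KT (C := fun R => R.card = m v ∨ R.card = 0) (by positivity)
            (hT v (by omega) hv.2)).trans ?_
          have := add_le_add (psi t0 (h v hv.2) (m := m v) fun _ _ => id)
            (psi t0 (h v hv.2) (m := 0) fun _ _ => id)
          rw [← Ex_add] at this
          rw [← mul_assoc E, ← add_mul, mul_left_comm]
          refine mul_le_mul_of_nonneg_right ((Ex_mono fun R _ => ?_).trans (this.trans (by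
            rw [← add_div, one_add_one_eq_two]))) (mul_nonneg (by positivity) (Ex0 fun _ => ind0 _))
          unfold ind
          split_ifs <;> simp_all
    _ ≤ _ := by
        rw [← mul_sum]
        refine mul_le_mul_of_nonneg_left ((sum_le_sum_of_subset_of_nonneg (filter_subset _ _)
          fun _ _ _ => ?_).trans ?_) (by positivity)
        · have := Ex0 (F := F) fun R => ind0 (Vv cl N (A ∪ R) ‹ℕ›)
          positivity
        rw [sum_add_distrib, ← mul_sum, ← mul_sum]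
        exact add_le_add (mul_le_of_le_one_right B0 pis) (mul_le_mul_of_nonneg_left (lostL d N) E0)

def CC (cl : ℕ → ℕ) (N r : ℕ) (μ : ℕ → ℕ) (X : Finset ℕ) (v : ℕ) : Prop :=
  Vv cl N X v ∧ v ≠ 0 ∧ up cl X v = r ∧ cnt cl X v = μ v

/-- Zone sums for the case that the heavy child is kept. -/
lemma zoneH {M : Finset ℕ → Prop} {B : ℝ} {r : ℕ} {μ : ℕ → ℕ} (B0 : 0 ≤ B) (p : ℕ → Prop)
    [DecidablePred p] (hH : ∀ v, p v → ∀ Q ⊆ F \ Hv cl F v, 2 ≤ cnt cl (A ∪ Q) v →
      Ex (Hv cl F v) (fun R => ind (M (A ∪ (Q ∪ R)))) ≤ B) :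
    Ex F (fun R => ∑ v ∈ (range (N + 1)).filter p, ind (CC cl N r μ (A ∪ R) v) * ind (M (A ∪ R))) ≤
      B * Ex F fun R => ind (∃ v ∈ (range (N + 1)).filter p, CC cl N r μ (A ∪ R) v) := by
  rw [Ex_sum]
  refine (sum_le_sum fun v hv => cond (filter_subset _ _ : Hv cl F v ⊆ F) (fun _ => ind0 _)
    (fun Q _ R hR => ?_) fun Q hQ n => hH v (mem_filter.mp hv).2 Q hQ
      (by_contra fun c => n (if_neg fun k => c (k.1.1 k.2.1)))).trans ?_
  · have : ∀ u, v ≤ u → cnt cl (A ∪ (Q ∪ R)) u = cnt cl (A ∪ Q) u := fun u hu =>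
      cnt_un (by grind [Hv])
    have : up cl (A ∪ (Q ∪ R)) v = up cl (A ∪ Q) v := congrArg card (by grind [Hv])
    exact congrArg ind (by unfold CC Vv; grind)
  · rw [← mul_sum, ← Ex_sum]
    exact mul_le_mul_of_nonneg_left (Ex_mono fun R _ => Vsum (N := N) (by grind) fun _ => And.left) B0

lemma toggle {r l : ℕ} {μ : ℕ → ℕ} (d : Disjoint A F) (bd : ∀ y ∈ A ∪ F, cl y ≤ N) (hl : l ∈ F)
    (e : cl l = N) : Ex F (fun R => ind (∃ v ≤ N, CC cl N r μ (A ∪ R) v)) ≤ 1 / 2 := by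
  refine half hl ?_
  rintro R hR ⟨⟨v, hv, k⟩, u, hu, k'⟩
  have n : l ∉ A ∪ R := by grind [disjoint_left]
  rw [union_insert] at k'
  have c : ∀ w, cnt cl (insert l (A ∪ R)) w = cnt cl (A ∪ R) w + if w = N then 1 else 0 := fun w => by
    unfold cnt
    rw [filter_insert]
    split_ifs <;> grind [card_insert_of_notMem]
  have c' : ∀ w < N, up cl (insert l (A ∪ R)) w = up cl (A ∪ R) w + 1 := fun w hw => by
    unfold up
    rw [filter_insert, if_pos (e ▸ hw), card_insert_of_notMem (by grind)]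
  have c0 : up cl (insert l (A ∪ R)) N = 0 :=
    card_eq_zero.mpr (filter_eq_empty_iff.mpr (by grind))
  have c1 : v < N → cnt cl (A ∪ R) N ≤ up cl (A ∪ R) v := fun _ => card_le_card (by grind)
  have c2 : u < N → v = u := fun _ => Vun k.1 (by unfold CC Vv at *; grind) hv hu
  unfold CC Vv at *
  grind

lemma large {r t u : ℕ} {μ : ℕ → ℕ} (d : Disjoint A F) (t0 : 0 < t) (hu : u ≤ N)
    (h : t ^ 2 + (Hv cl F u).card ≤ F.card) :
    Ex F (fun R => ind (∃ v ≤ u, CC cl N r μ (A ∪ R) v)) ≤ 2 / t := by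
  have s : F \ Hv cl F u ⊆ F := sdiff_subset
  have h' : t ^ 2 ≤ (F \ Hv cl F u).card := by
    have := card_sdiff_add_card_eq_card (show Hv cl F u ⊆ F from filter_subset _ _)
    omega
  rw [Ex_split s]
  refine Ex_le fun Q hQ => ?_
  have q : ∀ y ∈ Q, cl y < u := by grind [Hv]
  have k : ∀ R ⊆ F \ Hv cl F u, ∀ p : ℕ → Prop, (∀ y, u ≤ cl y → p y) →
      ((A ∪ (Q ∪ R)).filter p).card = ((A ∪ Q).filter p).card + R.card := fun R hR p hp => by
    rw [← union_assoc, fil_un (by grind [disjoint_left, Hv]),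
      filter_true_of_mem (s := R) (by grind [Hv])]
  have h1 := psi t0 h' (E := fun R => CC cl N r μ (A ∪ (Q ∪ R)) u)
    (m := r + μ u - ((A ∪ Q).filter fun y => ¬ cl y < u).card) fun R hR c => by
      have := k R hR (fun y => ¬ cl y < u) (by omega)
      have := three cl (A ∪ (Q ∪ R)) u
      have := card_filter_add_card_filter_not (s := A ∪ (Q ∪ R)) fun y => cl y < u
      unfold CC Hv at *
      grind
  obtain ⟨w, hw, b⟩ := Vex cl (u - 1) (A ∪ Q)
  have h2 := psi t0 h' (E := fun R => ∃ v < u, CC cl N r μ (A ∪ (Q ∪ R)) v)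
    (m := r - up cl (A ∪ Q) w) fun R hR ⟨v, hv, c⟩ => by
      have : ∀ w < u, cnt cl (A ∪ (Q ∪ R)) w = cnt cl (A ∪ Q) w := fun w hw =>
        cnt_un (by grind [Hv])
      obtain rfl : v = w := Vun (by unfold CC Vv at *; grind) b (by omega) hw
      have := k R hR (fun y => v < cl y) (by omega)
      unfold CC up at *
      grind
  have := add_le_add h1 h2
  rw [← Ex_add, ← add_div, one_add_one_eq_two] at this
  refine (Ex_mono fun R _ => ?_).trans this
  by_cases c : ∃ v ≤ u, CC cl N r μ (A ∪ (Q ∪ R)) v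
  · obtain ⟨v, hv, c⟩ := c
    rcases hv.eq_or_lt with rfl | hv
    · exact (ind_le fun _ => c).trans (le_add_of_nonneg_right (ind0 _))
    · exact (ind_le fun _ => ⟨v, hv, c⟩).trans (le_add_of_nonneg_left (ind0 _))
  · exact (if_neg c).trans_le (add_nonneg (ind0 _) (ind0 _))

lemma core {M : Finset ℕ → Prop} {K g t r n l : ℕ} {μ : ℕ → ℕ} {B0 B1 B2 E κ : ℝ}
    (d : Disjoint A F) (bd : ∀ y ∈ A ∪ F, cl y ≤ N) (hl : l ∈ F) (e : cl l = N)
    (hv : ∀ v, cnt cl F v ≤ (Hv cl F v).card + 1)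
    (v1 : ∀ R ⊆ F, M (A ∪ R) → (A ∪ R).card = n ∧ ∀ v ≤ N, Vv cl N (A ∪ R) v → up cl (A ∪ R) v ≤ r)
    (v2 : ∀ R ⊆ F, M (A ∪ R) → ∀ v ≤ N, Vv cl N (A ∪ R) v → (Hv cl R v).card ≠ 0 → v ≠ 0 →
      CC cl N r μ (A ∪ R) v)
    (H1 : ∀ v, F.card ≤ (Hv cl F v).card + g → ∀ Q ⊆ F \ Hv cl F v, 2 ≤ cnt cl (A ∪ Q) v →
      Ex (Hv cl F v) (fun R => ind (M (A ∪ (Q ∪ R)))) ≤ B1 + E / 4)
    (H2 : ∀ v, F.card ≤ 4 * (Hv cl F v).card → ∀ Q ⊆ F \ Hv cl F v, 2 ≤ cnt cl (A ∪ Q) v →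
      Ex (Hv cl F v) (fun R => ind (M (A ∪ (Q ∪ R)))) ≤ B2 + E)
    (T0 : ∀ v ≤ N, ∀ Q ⊆ F \ Sg cl A F v, Vv cl N (A ∪ Q) v →
      Ex (Sg cl A F v) (fun R => ind (M (A ∪ (Q ∪ R)))) ≤
        B0 + E * κ * exp ((2 * (Hv cl F v).card + lost cl A F N v) / 32))
    (T1 : ∀ v ≤ N, 2 * (Hv cl F v).card + 1 ≤ g → ∀ Q ⊆ F \ Sg cl A F v, Vv cl N (A ∪ Q) v →
      Ex (Sg cl A F v) (fun R => ind (M (A ∪ (Q ∪ R)))) ≤ B1 + E * exp (lost cl A F N v / 32))
    (T2 : ∀ v ≤ N, 4 * (Hv cl F v).card < F.card → ∀ Q ⊆ F \ Sg cl A F v, Vv cl N (A ∪ Q) v →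
      Ex (Sg cl A F v) (fun R => ind (M (A ∪ (Q ∪ R)))) ≤ B2 + E * exp (lost cl A F N v / 32))
    (sm : ∀ h, F.card ≤ 4 * h → 1 / 2 ^ h ≤ E / 8) (K0 : 160 ^ 2 ≤ K) (t0 : 176 ≤ t)
    (tg : 2 * t ^ 2 ≤ g) (hB : 9 / 16 * B1 + 4 / t * B2 ≤ B0) (hκ : κ * 2 ^ (2 * K + 1) * 20 ≤ 1)
    (b1 : 0 ≤ B1) (b2 : 0 ≤ B2) (E0 : 0 ≤ E) (κ0 : 0 ≤ κ) :
    Ex F (fun R => ind (M (A ∪ R))) ≤ B0 + E / 2 := by
  have b0 : 0 ≤ B0 := le_trans (by positivity) hB
  have sp : ∀ R ⊆ F, ∀ v, (Hv cl (A ∪ R) v).card = (Hv cl A v).card + (Hv cl R v).card :=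
    fun R hR v => fil_un (d.mono_right hR) _
  by_cases c : ∃ R ⊆ F, ∃ v ≤ N, M (A ∪ R) ∧ Vv cl N (A ∪ R) v ∧ (Hv cl F v).card ≤ K
  · obtain ⟨R0, s0, u, hu, m0, k0, c⟩ := c
    refine (alpha (K := 2 * K + 1) d b0 (by positivity) (fun R hR v hv' m k => ?_) T0).trans
      (by nlinarith [mul_le_mul_of_nonneg_left hκ E0])
    rcases le_or_gt v u with q | q
    · exact (card_le_card fun y hy => mem_filter.mpr ⟨hR (mem_filter.mp hy).1,
        (mem_filter.mp hy).2.trans_le q⟩).trans (c.trans (by omega))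
    by_contra! h
    have h1 := (v2 R hR m v hv' k (by omega) (by omega)).2.2.1
    have h2 := three cl (A ∪ R) v
    have h3 := three cl (A ∪ R0) u
    have h4 : cnt cl (A ∪ R0) u = cnt cl A u + cnt cl R0 u := fil_un (d.mono_right s0) _
    have h5 : cnt cl R0 u ≤ cnt cl F u := card_le_card (filter_subset_filter _ s0)
    have h6 : (Hv cl R0 u).card ≤ (Hv cl F u).card := card_le_card (filter_subset_filter _ s0)
    have h7 : (Hv cl A u).card + cnt cl A u ≤ (Hv cl A v).card := by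
      clear * - q
      rw [cnt, ← card_union_of_disjoint (by grind [Hv, disjoint_left])]
      exact card_le_card (by grind [Hv])
    have := sp R hR v
    have := sp R0 s0 u
    have := v1 R hR m
    have := v1 R0 s0 m0
    have := this.2 u hu k0
    have := hv u
    omega
  push Not at c
  have t1 : (176 : ℝ) ≤ t := by exact_mod_cast t0
  let h : ℕ → ℕ := fun v => (Hv cl F v).card
  let m : ℕ → ℕ := fun v => n - r - μ v - (Hv cl A v).card
  have z1 := zoneH (N := N) (r := r) (μ := μ) (by positivity) (fun v => F.card ≤ h v + g) H1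
  have z2 := zoneH (N := N) (r := r) (μ := μ) (by positivity)
    (fun v => F.card ≤ 4 * h v ∧ h v + g < F.card) fun v q => H2 v q.1
  have z4 := zoneT (N := N) (m := m) d b1 E0 (show 0 < 160 by norm_num)
    (fun v => K < h v ∧ 2 * h v + 1 ≤ g) (fun v q => K0.trans q.1.le) fun v a q => T1 v a q.2
  have z5 := zoneT (N := N) (m := m) (t := t) d b2 E0 (by omega)
    (fun v => 4 * h v < F.card ∧ g < 2 * h v + 1) (fun v q => by
      have := q.2
      simp only [h] at this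
      omega) fun v a q => T2 v a q.1
  have z3 : Ex F (fun R => ∑ v ∈ (range (N + 1)).filter fun v => F.card ≤ 4 * h v,
      ind (Vv cl N (A ∪ R) v ∧ (Hv cl R v).card = 0)) ≤ E / 8 := by
    rw [Ex_sum]
    refine (sum_le_sum fun v hv => (K1 (C := fun R => R.card = 0)).trans (mul_le_mul_of_nonneg_right
      ((uniq {∅} (by simp)).trans (by simpa using sm _ (mem_filter.mp hv).2))
      (Ex0 fun _ => ind0 _))).trans ?_
    rw [← mul_sum]
    exact mul_le_of_le_one_right (by positivity) ((sum_le_sum_of_subset_of_nonneg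
      (filter_subset _ _) fun _ _ _ => Ex0 fun _ => ind0 _).trans pis)
  have y1 := mul_le_mul_of_nonneg_left ((Ex_mono fun R _ => ind_le fun ⟨v, a, b⟩ =>
    ⟨v, Nat.le_of_lt_succ (mem_range.mp (mem_filter.mp a).1), b⟩).trans (toggle (r := r) (μ := μ) d bd hl e) : Ex F (fun R => ind (∃ v ∈ (range (N + 1)).filter
      fun v => F.card ≤ h v + g, CC cl N r μ (A ∪ R) v)) ≤ _) (show 0 ≤ B1 + E / 4 by positivity)
  have y2 : Ex F (fun R => ind (∃ v ∈ (range (N + 1)).filter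
      fun v => F.card ≤ 4 * h v ∧ h v + g < F.card, CC cl N r μ (A ∪ R) v)) ≤ 2 / t := by
    rcases ((range (N + 1)).filter fun v => F.card ≤ 4 * h v ∧ h v + g < F.card).eq_empty_or_nonempty
      with q | q
    · exact Ex_le fun _ _ => by simp [q, ind]; positivity
    · have := mem_filter.mp (max'_mem _ q)
      exact (Ex_mono fun R _ => ind_le fun ⟨v, a, b⟩ => ⟨v, le_max' _ _ a, b⟩).trans
        (large d (by omega) (Nat.le_of_lt_succ (mem_range.mp this.1)) (by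
          have := this.2.2
          simp only [h] at this ⊢
          omega))
  have y3 := mul_le_mul_of_nonneg_left y2 (show 0 ≤ B2 + E by positivity)
  have y4 : 2 / (t : ℝ) * E ≤ 1 / 88 * E := by
    gcongr ?_ * _
    rw [div_le_div_iff₀ (by linarith) (by norm_num)]
    linarith
  have := add_le_add (add_le_add (add_le_add (add_le_add (z1.trans y1) (z2.trans y3)) z3) z4) z5
  simp only [← Ex_add] at this
  refine (Ex_mono fun R hR => ?_).trans (this.trans ?_)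
  · by_cases q : M (A ∪ R)
    swap
    · simp only [show ind (M (A ∪ R)) = 0 from if_neg q, mul_zero, sum_const_zero, add_zero, zero_add]
      exact sum_nonneg fun _ _ => ind0 _
    obtain ⟨v, hv, k⟩ := Vex cl N (A ∪ R)
    have p0 : ∀ {p : ℕ → Prop} {ψ : ℕ → Prop} {_ : DecidablePred p}, (0 : ℝ) ≤
        ∑ v ∈ (range (N + 1)).filter p, ind (ψ v) := sum_nonneg fun _ _ => ind0 _
    have p1 : ∀ {p : ℕ → Prop} {ψ : ℕ → Prop} {_ : DecidablePred p}, p v → ψ v → (1 : ℝ) ≤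
        ∑ v ∈ (range (N + 1)).filter p, ind (ψ v) := fun a b => le_trans (if_pos b).ge
      (single_le_sum (fun _ _ => ind0 _) (mem_filter.mpr ⟨mem_range.mpr (by omega), a⟩))
    have hK := c R hR v hv q k
    have v0 : v ≠ 0 := by rintro rfl; simp [Hv] at hK
    have cc := fun a => v2 R hR q v hv k a v0
    have C : Vv cl N (A ∪ R) v ∧ ((Hv cl R v).card = m v ∨ (Hv cl R v).card = 0) :=
      ⟨k, or_iff_not_imp_right.mpr fun a => by
        have := three cl (A ∪ R) v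
        have := sp R hR v
        have := (v1 R hR q).1
        have := (cc a).2.2
        simp only [m]
        omega⟩
    simp only [show ind (M (A ∪ R)) = 1 from if_pos q, mul_one]
    by_cases a1 : F.card ≤ 4 * h v
    · by_cases a2 : (Hv cl R v).card = 0
      · exact le_add_of_le_of_nonneg (le_add_of_le_of_nonneg (le_add_of_nonneg_of_le
          (add_nonneg p0 p0) (p1 a1 ⟨k, a2⟩)) p0) p0
      refine le_add_of_le_of_nonneg (le_add_of_le_of_nonneg (le_add_of_le_of_nonneg ?_ p0) p0) p0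
      by_cases a3 : F.card ≤ h v + g
      · exact le_add_of_le_of_nonneg (p1 a3 (cc a2)) p0
      · exact le_add_of_nonneg_of_le p0 (p1 ⟨a1, not_le.mp a3⟩ (cc a2))
    by_cases a2 : 2 * h v + 1 ≤ g
    · exact le_add_of_le_of_nonneg (le_add_of_nonneg_of_le (add_nonneg (add_nonneg p0 p0) p0)
        (p1 ⟨hK, a2⟩ C)) p0
    · exact le_add_of_nonneg_of_le (add_nonneg (add_nonneg (add_nonneg p0 p0) p0) p0)
        (p1 ⟨not_le.mp a1, not_le.mp a2⟩ C)
  · have : 4 / (t : ℝ) * B2 = 2 * (2 / t * B2) := by ring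
    push_cast
    linarith

end Pool.Agent.H.MP_e96620_co
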