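import Pool.Agent.H.MP_e96620_co.C

/-! The dyadic ultrametric and similarity of finite sets. -/

namespace Pool.Agent.H.MP_e96620_co
open Finset Classical

variable {x y z i j v : ℕ} {X Y Z : Finset ℕ} {f g : ℕ → ℕ}

noncomputable def e (x y : ℕ) : ℕ := sInf {i | x / 2 ^ i = y / 2 ^ i}

lemma e_le : e x y ≤ i ↔ x / 2 ^ i = y / 2 ^ i := by
  refine ⟨fun h => ?_, fun h => Nat.sInf_le h⟩
  have : x / 2 ^ e x y = y / 2 ^ e x y := Nat.sInf_mem (s := {i | x / 2 ^ i = y / 2 ^ i}) ⟨x + y, by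
    have := (x + y).lt_two_pow_self
    exact (Nat.div_eq_of_lt (by omega)).trans (Nat.div_eq_of_lt (by omega)).symm⟩
  obtain ⟨k, rfl⟩ := Nat.exists_eq_add_of_le h
  rw [pow_add, ← Nat.div_div_eq_div_mul, ← Nat.div_div_eq_div_mul, this]

lemma e_comm (x y : ℕ) : e x y = e y x := by simp only [e, eq_comm]

lemma e_zero : e x y = 0 ↔ x = y := Nat.le_zero.symm.trans (e_le.trans (by simp))

lemma e_ult (x y z : ℕ) : e x z ≤ max (e x y) (e y z) :=
  e_le.mpr ((e_le.mp (le_max_left _ _)).trans (e_le.mp (le_max_right _ _)))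

lemma e_ord (h : x ≤ y) (k : y ≤ z) : e x y ≤ e x z ∧ e y z ≤ e x z := by
  have := e_le.mp (le_refl (e x z))
  have := Nat.div_le_div_right (c := 2 ^ e x z) h
  have := Nat.div_le_div_right (c := 2 ^ e x z) k
  exact ⟨e_le.mpr (by omega), e_le.mpr (by omega)⟩

lemma e_lt (h : e x z = e y z) (n : x ≠ z) : e x y < e x z := by
  obtain ⟨v, hv⟩ := Nat.exists_eq_succ_of_ne_zero (mt e_zero.mp n)
  have h1 := e_le.mp hv.le
  have h2 := e_le.mp (h ▸ hv).le
  have h3 := mt (e_le (x := x) (y := z) (i := v)).mpr (by omega)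
  have h4 := mt (e_le (x := y) (y := z) (i := v)).mpr (by omega)
  simp only [pow_succ, ← Nat.div_div_eq_div_mul] at h1 h2
  rw [hv]
  exact Nat.lt_succ_of_le (e_le.mpr (by omega))

lemma e_eq (h : e y z < e x z) : e x y = e x z := by
  have := e_ult x y z
  have := e_ult x z y
  rw [e_comm z] at this
  omega

noncomputable def D (X : Finset ℕ) : Finset ℕ := X.offDiag.image fun q => e q.1 q.2

lemma mem_D : v ∈ D X ↔ ∃ a ∈ X, ∃ b ∈ X, a ≠ b ∧ e a b = v := by
  simp only [D, mem_image, mem_offDiag, Prod.exists]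
  grind

def Sim : ℕ → (ℕ → ℕ) → Finset ℕ → Prop
  | 0, f, X => ∀ x ∈ X, f x = x
  | j + 1, f, X => StrictMonoOn f X ∧ ∃ g, (∀ x ∈ X, ∀ y ∈ X, x ≠ y → e (f x) (f y) = g (e x y)) ∧
      Sim j g (D X)

def Rel (j : ℕ) (X Y : Finset ℕ) : Prop := ∃ f, Sim j f X ∧ X.image f = Y

lemma Sim.mono (h : Sim j f X) : StrictMonoOn f X := by
  cases j
  · exact fun a ha b hb l => by rwa [h a ha, h b hb]
  · exact h.1

lemma Sim.sub (h : Sim j f X) (s : Z ⊆ X) : Sim j f Z := by
  induction j generalizing f X Z with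
  | zero => exact fun x hx => h x (s hx)
  | succ j ih =>
    obtain ⟨m, g, h1, h2⟩ := h
    exact ⟨m.mono s, g, fun x hx y hy => h1 x (s hx) y (s hy),
      ih h2 (image_subset_image (offDiag_mono s))⟩

lemma D_image (m : StrictMonoOn f X) (h : ∀ x ∈ X, ∀ y ∈ X, x ≠ y → e (f x) (f y) = g (e x y)) :
    D (X.image f) = (D X).image g := by
  ext v
  have := m.injOn
  simp only [mem_D, mem_image]
  grind [Set.InjOn]

lemma Sim.cmp (h : Sim (j + 1) f X) {a b c d : ℕ} (ha : a ∈ X) (hb : b ∈ X) (hc : c ∈ X)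
    (hd : d ∈ X) : e (f a) (f b) < e (f c) (f d) ↔ e a b < e c d := by
  obtain ⟨m, g, h1, h2⟩ := h
  by_cases n : c = d
  · simp [n, e_zero.mpr rfl]
  by_cases n' : a = b
  · simp [n', e_zero.mpr rfl, Nat.pos_iff_ne_zero, e_zero, n, m.injOn.eq_iff hc hd]
  rw [h1 a ha b hb n', h1 c hc d hd n]
  exact h2.mono.lt_iff_lt (mem_D.mpr ⟨a, ha, b, hb, n', rfl⟩) (mem_D.mpr ⟨c, hc, d, hd, n, rfl⟩)

noncomputable def TP (X : Finset ℕ) : Finset ℕ := X.filter fun y => ∀ a ∈ X, ∀ a' ∈ X, ∀ b ∈ X,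
  ∀ b' ∈ X, a ≠ a' → b ≠ b' → e a a' < e a b → e b b' < e a b → ∀ u ∈ X, u ≠ y → e a b < e y u

noncomputable def LC (X : Finset ℕ) : Finset ℕ :=
  X.filter fun y => ∃ u ∈ X, y < u ∧ ∀ a ∈ X, ∀ b ∈ X, ¬ e y u < e a b

lemma Sim.tp (h : Sim (j + 1) f X) : TP (X.image f) = (TP X).image f := by
  rw [TP, filter_image]
  refine congrArg _ (filter_congr fun y hy => ?_)
  simp only [forall_mem_image]
  refine forall₂_congr fun a ha => forall₂_congr fun a' ha' => forall₂_congr fun b hb =>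
    forall₂_congr fun b' hb' => ?_
  rw [h.cmp ha ha' ha hb, h.cmp hb hb' ha hb, h.1.injOn.ne_iff ha ha', h.1.injOn.ne_iff hb hb']
  exact forall₄_congr fun _ _ _ _ => forall₂_congr fun u hu => by
    rw [h.cmp ha hb hy hu, h.1.injOn.ne_iff hu hy]

lemma Sim.lc (h : Sim (j + 1) f X) : LC (X.image f) = (LC X).image f := by
  rw [LC, filter_image]
  refine congrArg _ (filter_congr fun y hy => ?_)
  simp only [forall_mem_image, exists_mem_image]
  exact exists_congr fun u => and_congr_right fun hu => and_congr (h.1.lt_iff_lt hy hu)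
    (forall₂_congr fun a ha => forall₂_congr fun b hb => by rw [h.cmp hy hu ha hb])

lemma Rel.inv (h : Rel (j + 1) X Y) : X.card = Y.card ∧ (TP X).card = (TP Y).card ∧
    (LC (X \ TP X)).card = (LC (Y \ TP Y)).card := by
  obtain ⟨f, h, rfl⟩ := h
  have c : ∀ Z ⊆ X, (Z.image f).card = Z.card := fun Z s => card_image_of_injOn (h.1.injOn.mono s)
  have s : TP X ⊆ X := filter_subset _ _
  have s' : LC (X \ TP X) ⊆ X := (filter_subset _ _).trans sdiff_subset
  rw [h.tp, ← image_sdiff_of_injOn h.1.injOn s, (h.sub sdiff_subset).lc, c _ subset_rfl, c _ s,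
    c _ s']
  simp

lemma one {N : ℕ} (bd : ∀ y ∈ X, e y z ≤ N) (h : Vv (e · z) N X v) {a b : ℕ} (ha : a ∈ X)
    (hb : b ∈ X) (l : v < e a z) (q : e a z = e b z) : a = b :=
  card_le_one.mp (h.2 _ l (bd a ha)) a (by simpa) b (by simpa [q])

lemma tp1 {N : ℕ} (bd : ∀ y ∈ X, e y z ≤ N) (h : Vv (e · z) N X v) :
    X.filter (fun y => v < e y z) ⊆ TP X := fun y hy => by
  rw [mem_filter] at hy
  have k : ∀ a ∈ X, v < e a z → ∀ u ∈ X, u ≠ a → e a z ≤ e a u := fun a ha l u hu n => by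
    rcases lt_trichotomy (e a z) (e u z) with q | q | q
    · rw [e_comm a u, e_eq q]; omega
    · exact (n (one bd h ha hu l q).symm).elim
    · rw [e_eq q]
  refine mem_filter.mpr ⟨hy.1, fun a ha a' ha' b hb b' hb' n n' l l' u hu m =>
    lt_of_lt_of_le (not_le.mp fun c => ?_) (k y hy.1 hy.2 u hu m)⟩
  have := e_ult a z b
  rw [e_comm z] at this
  have := k a ha
  have := k b hb
  grind

lemma tp2 {N : ℕ} (bd : ∀ y ∈ X, e y z ≤ N) (h : Vv (e · z) N X v) (hz : z ∈ X) {b : ℕ}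
    (hb : b ∈ X) (n : b ≠ z) (l : e b z < v) : X \ TP X = X.filter fun y => e y z ≤ v := by
  refine Subset.antisymm (fun y hy => by have := @tp1 _ _ _ _ bd h y; grind) fun y hy => ?_
  obtain ⟨a, ha, a', ha', m⟩ := one_lt_card.mp (h.1 (by omega))
  simp only [mem_filter] at ha ha' hy
  refine mem_sdiff.mpr ⟨hy.1, fun k => ?_⟩
  have := (mem_filter.mp k).2 a ha.1 a' ha'.1 z hz b hb m n.symm
    (e_lt (ha.2.trans ha'.2.symm) (mt e_zero.mpr (by omega))) (by rw [e_comm]; omega)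
  have h1 := this z hz
  have h2 := this a ha.1
  have := @e_zero a z
  have := e_comm z a
  grind

lemma lc1 (hz : z ∈ X) (bd : ∀ y ∈ X, e y z ≤ v) {w : ℕ} (hw : w ∈ X) (l : e w z = v) (v0 : v ≠ 0) :
    (LC X).card = if w < z then cnt (e · z) X v else (Hv (e · z) X v).card := by
  have u : ∀ a ∈ X, ∀ b ∈ X, e a b ≤ v := fun a ha b hb => (e_ult a z b).trans
    (max_le (bd a ha) (e_comm b z ▸ bd b hb))
  have z0 : e z z = 0 := e_zero.mpr rfl
  have s : ∀ a b, e a z = v → e b z = v → a < z → b < z := fun a b ha hb q => not_le.mp fun c => by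
    have := e_lt (ha.trans hb.symm) q.ne
    have := e_ord q.le c
    omega
  have s' : ∀ a b, e a z = v → e b z ≤ v → v ≤ e a b → e b z < v := fun a b ha hb q =>
    lt_of_le_of_ne hb fun c => by
      have := e_lt (ha.trans c.symm) (mt e_zero.mpr (by omega))
      omega
  split_ifs with c <;> refine congrArg card (filter_congr fun y hy => ⟨fun ⟨a, ha, p, q⟩ => ?_,
    fun q => ?_⟩)
  · have h1 : v ≤ e y a := l ▸ not_lt.mp (q w hw z hz)
    show e y z = v
    by_contra n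
    have := bd y hy
    have := e_ult y z a
    have := bd a ha
    have := e_comm z a
    have := e_ord p.le (s w a l (by omega) c).le
    omega
  · exact ⟨z, hz, s w y l q c, fun a ha b hb => not_lt.mpr ((u a ha b hb).trans q.ge)⟩
  · have h1 : v ≤ e y a := l ▸ not_lt.mp (q w hw z hz)
    refine lt_of_le_of_ne (bd y hy) fun n => ?_
    have := s' y a n (bd a ha) h1
    have := e_ord (not_lt.mp fun k => c (s y w n l k)) p.le
    rw [e_comm z, e_comm z] at this
    omega
  · replace q : e y z < e w z := l ▸ q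
    refine ⟨w, hw, not_le.mp fun k => ?_, fun a ha b hb => not_lt.mpr ?_⟩
    · have := e_ord (not_lt.mp c) k
      rw [e_comm z, e_comm z] at this
      omega
    · rw [e_comm y, e_eq q, l]
      exact u a ha b hb

lemma seg {r : ℕ → ℕ → Prop} (t : ∀ a b, a ≠ b → r a b ∨ r b a) {L L' : Finset ℕ} (s : L ⊆ Y)
    (s' : L' ⊆ Y) (h : ∀ a ∈ L, ∀ b ∈ Y, r b a → b ∈ L) (h' : ∀ a ∈ L', ∀ b ∈ Y, r b a → b ∈ L')
    (c : L.card = L'.card) : L = L' := by
  by_contra n
  obtain ⟨a, ha, k⟩ := not_subset.mp fun q => n (eq_of_subset_of_card_le q c.ge)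
  obtain ⟨b, hb, k'⟩ := not_subset.mp fun q => n (eq_of_subset_of_card_le q c.le).symm
  grind

lemma heavy (M : ℕ) : ∀ S F : Finset ℕ, S.Nonempty → F ⊆ S → (∀ x ∈ S, ∀ y ∈ S, e x y ≤ M) →
    ∃ z ∈ S, ∀ v ≠ 0, cnt (e · z) F v ≤ (Hv (e · z) F v).card := by
  induction M with
  | zero =>
    exact fun S F ⟨z, hz⟩ s h => ⟨z, hz, fun v n => (card_eq_zero.mpr
      (filter_eq_empty_iff.mpr (by grind))).trans_le (Nat.zero_le _)⟩
  | succ M ih =>
  intro S F ⟨x, hx⟩ s h
  have k : ∀ T ⊆ S, T.Nonempty → (∀ a ∈ T, ∀ b ∈ T, e a b ≤ M) →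
      (∀ a ∈ S, a ∉ T → ∀ b ∈ T, e a b = M + 1) → (F \ T).card ≤ (F ∩ T).card →
      ∃ z ∈ S, ∀ v ≠ 0, cnt (e · z) F v ≤ (Hv (e · z) F v).card := fun T s' n h1 h2 c => by
    obtain ⟨z, hz, k⟩ := ih T (F ∩ T) n inter_subset_right h1
    refine ⟨z, s' hz, fun v n => ?_⟩
    rcases le_or_gt v M with q | q
    · exact (card_le_card (by grind)).trans ((k v n).trans (card_le_card (by grind [Hv])))
    · exact (card_le_card (by grind)).trans (c.trans (card_le_card (by grind [Hv])))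
  have x0 : e x x = 0 := e_zero.mpr rfl
  have q : ∀ a b, e b x < e a x → e a b = e a x := fun _ _ => e_eq
  rcases le_total (F.filter fun y => e y x ≤ M).card (F.filter fun y => ¬ e y x ≤ M).card with c | c
  · rcases (S.filter fun y => ¬ e y x ≤ M).eq_empty_or_nonempty with n | n
    · have n' : ∀ a ∈ S, e a x ≤ M := by simpa [filter_eq_empty_iff] using n
      exact ih S F ⟨x, hx⟩ s fun a ha b hb => (e_ult a x b).trans (max_le (n' a ha)
        (e_comm b x ▸ n' b hb))
    · refine k _ (filter_subset _ _) n (fun a ha b hb => ?_) (fun a ha n b hb => ?_)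
        ((card_le_card (by grind)).trans (c.trans (card_le_card (by grind))))
      · have := @e_lt a b x
        grind
      · have := e_comm a b
        grind
  · exact k (S.filter fun y => e y x ≤ M) (filter_subset _ _) ⟨x, by grind⟩
      (fun a ha b hb => (e_ult a x b).trans (max_le (by grind) (e_comm b x ▸ by grind)))
      (by grind) ((card_le_card (by grind)).trans (c.trans (card_le_card (by grind))))

end Pool.Agent.H.MP_e96620_co
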