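import Pool.Agent.H.MP_e96620_co.D

/-! Transfer lemmas and the main estimate. -/

namespace Pool.Agent.H.MP_e96620_co
open Finset Classical Real

variable {x y z i j v : ℕ} {A F G O X Y Z : Finset ℕ} {f g : ℕ → ℕ}

lemma trH (hz : z ∈ A) (hO : ∀ y ∈ O, v ≤ e y z) (hA : ∀ y ∈ A ∪ G, e y z < v) (Y : Finset ℕ) :
    ∃ Y', ∀ R ⊆ G, Rel j (O ∪ (A ∪ R)) Y → Rel j (A ∪ R) Y' := by
  by_cases c : ∃ R ⊆ G, Rel j (O ∪ (A ∪ R)) Y
  swap
  · exact ⟨∅, fun R hR h => (c ⟨R, hR, h⟩).elim⟩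
  obtain ⟨R0, s0, f0, h0, e0⟩ := c
  have k : ∀ (r : ℕ → ℕ → Prop) [DecidablePred (r · z)], (∀ a b, r a b → r b z → r a z) → (∀ a b, a ≠ b → r a b ∨ r b a) →
      (∀ a b, r b a → r a z → e a z ≤ e b z) →
      (∀ {f : ℕ → ℕ} {X : Finset ℕ}, StrictMonoOn f X → ∀ a ∈ X, ∀ b ∈ X, r (f a) (f b) → r a b) →
      ∀ R ⊆ G, ∀ f, Sim j f (O ∪ (A ∪ R)) → (O ∪ (A ∪ R)).image f = Y →
      (O.filter (r · z)).image f = (O.filter (r · z)).image f0 := fun r _ r1 r2 r3 r4 R hR f h e1 => by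
    have q : ∀ R ⊆ G, ∀ f, Sim j f (O ∪ (A ∪ R)) → (O ∪ (A ∪ R)).image f = Y →
        (O.filter (r · z)).image f ⊆ Y ∧ ((O.filter (r · z)).image f).card = (O.filter (r · z)).card ∧
        ∀ a ∈ (O.filter (r · z)).image f, ∀ b ∈ Y, r b a → b ∈ (O.filter (r · z)).image f :=
      fun R hR f h e1 => by
        have s : O.filter (r · z) ⊆ O ∪ (A ∪ R) := (filter_subset _ _).trans subset_union_left
        refine ⟨e1 ▸ image_subset_image s, card_image_of_injOn (h.mono.injOn.mono s), ?_⟩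
        subst e1
        simp only [forall_mem_image]
        intro a ha b hb l
        have l := r4 h.mono b hb a (s ha) l
        rw [mem_filter] at ha
        refine mem_image_of_mem _ (mem_filter.mpr ⟨by_contra fun n => ?_, r1 _ _ l ha.2⟩)
        have := r3 a b l ha.2
        have := hO a ha.1
        have := hA b (by clear * - n hb hR; grind)
        omega
    obtain ⟨a1, a2, a3⟩ := q R hR f h e1
    obtain ⟨b1, b2, b3⟩ := q R0 s0 f0 h0 e0
    exact seg r2 a1 b1 a3 b3 (a2.trans b2.symm)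
  refine ⟨Y \ O.image f0, fun R hR ⟨f, h, e1⟩ => ⟨f, h.sub subset_union_right, ?_⟩⟩
  have h1 := k (· < ·) (fun _ _ => lt_trans) (fun _ _ => lt_or_gt_of_ne)
    (fun a b p q => (e_ord p.le q.le).2) (fun m a ha b hb => (m.lt_iff_lt ha hb).mp) R hR f h e1
  have h2 := k (· > ·) (fun _ _ => gt_trans) (fun _ _ n => lt_or_gt_of_ne n.symm)
    (fun a b p q => by rw [e_comm a, e_comm b]; exact (e_ord q.le p.le).1)
    (fun m a ha b hb => (m.lt_iff_lt hb ha).mp) R hR f h e1
  have z0 : e z z < v := hA z (mem_union_left _ hz)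
  have u : O = O.filter (· < z) ∪ O.filter (· > z) := by clear * - hO z0; grind
  have : O.image f0 = O.image f := by rw [u, image_union, image_union, h1, h2]
  rw [this, ← e1, ← image_sdiff_of_injOn h.mono.injOn subset_union_left]
  exact congrArg _ (by clear * - hO hA hR; grind)

lemma trT {N : ℕ} {Q : Finset ℕ} (d : Disjoint A F) (hz : z ∈ A) (bd : ∀ y ∈ A ∪ F, e y z ≤ N)
    (hQ : Q ⊆ F \ Sg (e · z) A F v) (h : Vv (e · z) N (A ∪ Q) v) (Y : Finset ℕ) :
    Set.InjOn (e · z) (Sg (e · z) A F v) ∧ ∃ A' Y', Disjoint A' ((Sg (e · z) A F v).image (e · z)) ∧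
      ∀ R ⊆ Sg (e · z) A F v, Rel (j + 1) (A ∪ (Q ∪ R)) Y → Rel j (A' ∪ R.image (e · z)) Y' := by
  have u : ∀ a ∈ Sg (e · z) A F v, ∀ b ∈ A ∪ F, e a z = e b z → a = b := fun a ha b hb q => by
    rw [Sg, mem_filter] at ha
    exact card_le_one.mp ha.2.2 a (by simp [ha.1]) b (mem_filter.mpr ⟨hb, q.symm⟩)
  have s : Sg (e · z) A F v ⊆ F := filter_subset _ _
  have dd : ∀ R ⊆ Sg (e · z) A F v, Disjoint (A ∪ Q) R := fun R hR => by
    clear * - d hQ hR s
    grind [disjoint_left]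
  have i : Set.InjOn (e · z) (Sg (e · z) A F v) := fun a ha b hb => u a ha b (mem_union_right _ (s hb))
  set A' := ((A ∪ Q).filter fun y => v < e y z).image (e · z) with hA
  have d' : Disjoint A' ((Sg (e · z) A F v).image (e · z)) := by
    simp only [disjoint_left, hA, mem_image, not_exists, not_and, mem_filter]
    rintro _ ⟨a, ha, rfl⟩ b hb q
    exact disjoint_left.mp (dd _ subset_rfl) ha.1
      (u b hb a (by clear * - ha hQ; grind) q ▸ hb)
  have q : ∀ R ⊆ Sg (e · z) A F v, A' ∪ R.image (e · z) = (D (A ∪ (Q ∪ R))).filter (v < ·) :=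
    fun R hR => by
      have k : ∀ a ∈ A ∪ (Q ∪ R), v < e a z → e a z ∈ A' ∪ R.image (e · z) := by
        clear * - hA
        grind
      have k' : ∀ a ∈ A ∪ (Q ∪ R), ∀ b ∈ A ∪ (Q ∪ R), v < e a z → e a z = e b z → a = b :=
        fun a ha b hb l q => by
          by_cases c : a ∈ R
          · exact u a (hR c) b (by clear * - hb hR hQ s; grind) q
          by_cases c' : b ∈ R
          · exact (u b (hR c') a (by clear * - ha hR hQ s; grind) q.symm).symm
          exact one (fun y hy => bd y (by clear * - hy hQ; grind)) h (by clear * - c ha; grind)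
            (by clear * - c' hb; grind) l q
      refine Subset.antisymm (fun w hw => ?_) fun w hw => ?_
      · obtain ⟨a, ha, l, rfl⟩ : ∃ a ∈ A ∪ (Q ∪ R), v < e a z ∧ e a z = w := by
          have : ∀ a ∈ R, v < e a z := fun a ha => (mem_filter.mp (hR ha)).2.1
          clear * - hA hw this
          grind
        exact mem_filter.mpr ⟨mem_D.mpr ⟨a, ha, z, mem_union_left _ hz,
          mt e_zero.mpr (by omega), rfl⟩, l⟩
      · obtain ⟨hw, l⟩ := mem_filter.mp hw
        obtain ⟨a, ha, b, hb, n, rfl⟩ := mem_D.mp hw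
        have := e_ult a z b
        rw [e_comm z] at this
        rcases lt_trichotomy (e a z) (e b z) with c | c | c
        · rw [e_comm, e_eq c] at l ⊢
          exact k b hb l
        · exact (n (k' a ha b hb (by omega) c)).elim
        · rw [e_eq c] at l ⊢
          exact k a ha l
  refine ⟨i, A', ?_⟩
  by_cases c : ∃ R ⊆ Sg (e · z) A F v, Rel (j + 1) (A ∪ (Q ∪ R)) Y
  swap
  · exact ⟨∅, d', fun R hR h => (c ⟨R, hR, h⟩).elim⟩
  have w : ∀ R ⊆ Sg (e · z) A F v, Rel (j + 1) (A ∪ (Q ∪ R)) Y → ∃ L ⊆ D Y,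
      Rel j (A' ∪ R.image (e · z)) L ∧ L.card + (A ∪ Q).card = A'.card + Y.card ∧
      ∀ a ∈ L, ∀ b ∈ D Y, b > a → b ∈ L := fun R hR k => by
    have c := k.inv.1
    obtain ⟨f, ⟨m, g, h1, h2⟩, rfl⟩ := k
    have s' : A' ∪ R.image (e · z) ⊆ D (A ∪ (Q ∪ R)) := q R hR ▸ filter_subset _ _
    rw [D_image m h1]
    refine ⟨_, image_subset_image s', ⟨g, h2.sub s', rfl⟩, ?_, ?_⟩
    · rw [card_image_of_injOn (h2.mono.injOn.mono s'), ← c, ← union_assoc, card_union_of_disjoint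
        (dd R hR), card_union_of_disjoint (d'.mono_right (image_subset_image hR)),
        card_image_of_injOn (i.mono hR)]
      omega
    · simp only [forall_mem_image, q R hR]
      intro a ha b hb l
      rw [mem_filter] at ha
      exact mem_image_of_mem _ (mem_filter.mpr ⟨hb, ha.2.trans ((h2.mono.lt_iff_lt ha.1 hb).mp l)⟩)
  obtain ⟨R0, s0, h0⟩ := c
  obtain ⟨L, a1, -, a3, a4⟩ := w R0 s0 h0
  refine ⟨L, d', fun R hR k => ?_⟩
  obtain ⟨L', b1, b2, b3, b4⟩ := w R hR k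
  rwa [seg (r := (· > ·)) (fun _ _ n => lt_or_gt_of_ne n.symm) a1 b1 a4 b4 (by omega)]

noncomputable def BB (t c l : ℕ) : ℝ := (16 / t) ^ c + (3 / 4) ^ l

noncomputable def EE (t j c l f : ℕ) : ℝ := exp ((1638624 * j + 2 * t ^ 2 * l - f * (1 / 4) ^ c) / 32)

def Mn (t j : ℕ) : Prop := ∀ (A F Y : Finset ℕ) (c l : ℕ), Disjoint A F →
  Ex F (fun R => ind (Rel j (A ∪ R) Y)) ≤ BB t c l + EE t j c l F.card

lemma BB0 (t c l : ℕ) : 0 ≤ BB t c l := by unfold BB; positivity

lemma EE0 (t j c l f : ℕ) : 0 < EE t j c l f := exp_pos _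

lemma Mn0 (t : ℕ) : Mn t 0 := fun A F Y c l d => by
  refine le_trans (uniq {Y \ A} fun R hR ⟨f, h, k⟩ => ?_) (le_add_of_nonneg_of_le (BB0 _ _ _) ?_)
  · rw [← k, image_congr (g := id) h, image_id, mem_singleton,
      union_sdiff_cancel_left (d.mono_right hR)]
  · rw [card_singleton, Nat.cast_one, div_le_iff₀ (by positivity), EE]
    have : exp (F.card * (1 / 32)) ≤ 2 ^ F.card := by
      rw [exp_nat_mul]
      gcongr
      linarith [e32]
    refine le_trans ?_ (mul_le_mul_of_nonneg_left this (exp_pos _).le)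
    rw [← exp_add, one_le_exp_iff]
    have : (F.card : ℝ) * (1 / 4) ^ c ≤ F.card :=
      mul_le_of_le_one_right (by positivity) (pow_le_one₀ (by norm_num) (by norm_num))
    have : (0 : ℝ) ≤ 2 * t ^ 2 * l := by positivity
    push_cast
    linarith

end Pool.Agent.H.MP_e96620_co
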