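import Pool.Agent.H.MP_e96620_co.E

/-! The main estimate. -/

namespace Pool.Agent.H.MP_e96620_co
open Finset Classical Real

lemma four (cl : ℕ → ℕ) {A F : Finset ℕ} {N : ℕ} (bd : ∀ y ∈ A ∪ F, cl y ≤ N) (v : ℕ) :
    F.card ≤ (Hv cl F v).card + cnt cl F v + (Sg cl A F v).card + lost cl A F N v := by
  refine le_trans (card_le_card ?_) ((card_union_le _ _).trans (Nat.add_le_add_right
    ((card_union_le _ _).trans (Nat.add_le_add_right (card_union_le _ _) _)) _))
  grind [Hv, Sg]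

lemma An {t j : ℕ} (t0 : 176 ≤ t) (ih : Mn t j) (z m : ℕ) : ∀ (A F Y : Finset ℕ) (c l : ℕ),
    (A ∪ F).card = m → Disjoint A F → z ∈ A → (∀ v, cnt (e · z) F v ≤ (Hv (e · z) F v).card + 1) →
    Ex F (fun R => ind (Rel (j + 1) (A ∪ R) Y)) ≤ BB t c l + EE t (j + 1) c l F.card / 2 := by
  induction m using Nat.strong_induction_on with
  | _ m IH =>
  intro A F Y c l hm d hz hv
  have z0 : e z z = 0 := e_zero.mpr rfl
  have t1 : (176 : ℝ) ≤ t := by exact_mod_cast t0
  have dr : ∀ v ≠ 0, ∀ Q ⊆ F \ Hv (e · z) F v, (∃ y ∈ A ∪ Q, v ≤ e y z) → ∀ c l,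
      Ex (Hv (e · z) F v) (fun R => ind (Rel (j + 1) (A ∪ (Q ∪ R)) Y)) ≤
        BB t c l + EE t (j + 1) c l (Hv (e · z) F v).card / 2 := fun v v0 Q hQ ⟨y, hy, p⟩ c l => by
    have hz' : z ∈ Hv (e · z) A v := mem_filter.mpr ⟨hz, by simp only [z0]; omega⟩
    obtain ⟨Y', k⟩ := trH (j := j + 1) (O := (A ∪ Q).filter fun y => v ≤ e y z)
      (G := Hv (e · z) F v) hz' (fun y hy => (mem_filter.mp hy).2) (by clear * -; grind [Hv]) Y
    refine (Ex_mono fun R hR => ind_le fun h => k R hR ?_).trans (IH _ ?_ _ _ Y' c l rfl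
      (disjoint_filter_filter d) hz' fun u => ?_)
    · rwa [show ((A ∪ Q).filter fun y => v ≤ e y z) ∪ (Hv (e · z) A v ∪ R) = A ∪ (Q ∪ R) by
        clear * - hQ; grind [Hv]]
    · rw [← hm]
      exact card_lt_card ((ssubset_iff_of_subset (by clear * -; grind [Hv])).mpr
        ⟨y, by clear * - hy hQ; grind, by clear * - p; grind [Hv]⟩)
    · rcases lt_or_ge u v with q | q
      · exact (card_le_card (by clear * -; grind [Hv])).trans ((hv u).trans
          (Nat.succ_le_succ (card_le_card (by clear * - q; grind [Hv]))))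
      · exact (card_eq_zero.mpr (filter_eq_empty_iff.mpr (by clear * - q; grind [Hv]))).trans_le
          (Nat.zero_le _)
  have tr : ∀ x : ℝ, 1 ≤ x → Ex F (fun R => ind (Rel (j + 1) (A ∪ R) Y)) ≤ x :=
    fun x h => Ex_le fun _ _ => (ind1 _).trans h
  have E0 := EE0 t (j + 1) c l F.card
  have B0 := BB0 t c l
  rcases c with _ | c
  · exact tr _ (by rw [BB, pow_zero, add_assoc]; exact le_add_of_nonneg_right (by positivity))
  rcases l with _ | l
  · exact tr _ (by rw [BB, pow_zero, add_comm _ (1 : ℝ), add_assoc]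
                   exact le_add_of_nonneg_right (by positivity))
  have j0 : (0 : ℝ) ≤ j := by positivity
  have g0 : (0 : ℝ) ≤ 2 * t ^ 2 * l := by positivity
  have g1 : (44 : ℝ) ≤ t ^ 2 := by nlinarith
  rcases F.eq_empty_or_nonempty with rfl | ne
  · refine tr _ (le_add_of_nonneg_of_le B0 ?_)
    rw [le_div_iff₀ two_pos]
    refine le_trans ?_ (add_one_le_exp _)
    push_cast [card_empty]
    linarith
  obtain ⟨a, ha, mx⟩ := exists_max_image F (e · z) ne
  by_cases hA : ∃ y ∈ A, e a z + 1 ≤ e y z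
  · have := dr (e a z + 1) (by omega) ∅ (empty_subset _) (by simpa using hA) (c + 1) (l + 1)
    rw [show Hv (e · z) F (e a z + 1) = F from filter_true_of_mem fun y hy =>
      Nat.lt_succ_of_le (mx y hy)] at this
    simpa using this
  have bd : ∀ y ∈ A ∪ F, e y z ≤ e a z := by clear * - hA mx; grind
  have bd' : ∀ R ⊆ F, ∀ y ∈ A ∪ R, e y z ≤ e a z := fun R hR y hy => bd y (by clear * - hR hy; grind)
  have dr' : ∀ v, ∀ Q ⊆ F \ Hv (e · z) F v, 2 ≤ cnt (e · z) (A ∪ Q) v → ∀ c l,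
      Ex (Hv (e · z) F v) (fun R => ind (Rel (j + 1) (A ∪ (Q ∪ R)) Y)) ≤
        BB t c l + EE t (j + 1) c l (Hv (e · z) F v).card / 2 := fun v Q hQ h => by
    obtain ⟨x, hx, y, hy, n⟩ := one_lt_card.mp h
    simp only [mem_filter] at hx hy
    refine dr v (fun q => n ?_) Q hQ ⟨x, hx.1, hx.2.ge⟩
    rw [e_zero.mp (hx.2.trans q), e_zero.mp (hy.2.trans q)]
  have tp : ∀ v, ∀ Q ⊆ F \ Sg (e · z) A F v, Vv (e · z) (e a z) (A ∪ Q) v → ∀ c l,
      Ex (Sg (e · z) A F v) (fun R => ind (Rel (j + 1) (A ∪ (Q ∪ R)) Y)) ≤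
        BB t c l + EE t j c l (Sg (e · z) A F v).card := fun v Q hQ h c l => by
    obtain ⟨i, A', Y', d', k⟩ := trT (j := j) d hz bd hQ h Y
    have := ih A' _ Y' c l d'
    rw [Ex_image i, card_image_of_injOn i] at this
    exact (Ex_mono fun R hR => ind_le (k R hR)).trans this
  have fo : ∀ v, (F.card : ℝ) ≤ 2 * (Hv (e · z) F v).card + 1 + (Sg (e · z) A F v).card +
      lost (e · z) A F (e a z) v := fun v => by
    have := four (e · z) bd v
    have := hv v
    exact_mod_cast (by omega)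
  have u0 : (0 : ℝ) < (1 / 4) ^ c := by positivity
  have u1 : (1 / 4 : ℝ) ^ c ≤ 1 := pow_le_one₀ (by norm_num) (by norm_num)
  refine core (M := fun X => Rel (j + 1) X Y) (K := 25600) (g := 2 * t ^ 2) (t := t)
    (r := (TP Y).card) (n := Y.card) (μ := fun v => if ∃ y, e y z = v ∧ y < z then
      (LC (Y \ TP Y)).card else Y.card - (TP Y).card - (LC (Y \ TP Y)).card)
    (B1 := BB t (c + 1) l) (B2 := BB t c (l + 1)) (κ := exp ((1 - 1638624) / 32)) d bd ha rfl hv
    (fun R hR h => ⟨h.inv.1, fun v _ k => h.inv.2.1 ▸ card_le_card (tp1 (bd' R hR) k)⟩)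
    (fun R hR h v _ k n v0 => ?_) (fun v q Q hQ h => (dr' v Q hQ h (c + 1) l).trans ?_)
    (fun v q Q hQ h => (dr' v Q hQ h c (l + 1)).trans ?_)
    (fun v _ Q hQ h => (tp v Q hQ h (c + 1) (l + 1)).trans ?_)
    (fun v _ q Q hQ h => (tp v Q hQ h (c + 1) l).trans ?_)
    (fun v _ q Q hQ h => (tp v Q hQ h c (l + 1)).trans ?_)
    (fun h q => ?_) le_rfl t0 le_rfl ?_ ?_ (BB0 _ _ _) (BB0 _ _ _) E0.le (exp_pos _).le
  · obtain ⟨b, hb⟩ := card_ne_zero.mp n
    rw [Hv, mem_filter] at hb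
    have hz' : z ∈ A ∪ R := mem_union_left _ hz
    have h1 := tp2 (bd' R hR) k hz' (mem_union_right _ hb.1)
      (fun q => disjoint_left.mp d hz (hR (q ▸ hb.1))) hb.2
    obtain ⟨i1, i2, i3⟩ := h.inv
    obtain ⟨w, hw⟩ := card_pos.mp (two_pos.trans_le (k.1 v0))
    rw [mem_filter] at hw
    have h2 := lc1 (X := (A ∪ R).filter fun y => e y z ≤ v) (v := v) (w := w) (mem_filter.mpr ⟨hz', by omega⟩)
      (fun y hy => (mem_filter.mp hy).2) (mem_filter.mpr ⟨hw.1, hw.2.le⟩) hw.2 v0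
    rw [← h1, i3, h1, show cnt (e · z) ((A ∪ R).filter fun y => e y z ≤ v) v = cnt (e · z) (A ∪ R) v
      from congrArg card (by clear * -; grind), show Hv (e · z) ((A ∪ R).filter fun y => e y z ≤ v) v =
        Hv (e · z) (A ∪ R) v by clear * -; grind [Hv]] at h2
    have h3 := card_sdiff_add_card_eq_card (show TP (A ∪ R) ⊆ A ∪ R from filter_subset _ _)
    have h4 := card_filter_add_card_filter_not (s := A ∪ R) fun y => e y z ≤ v
    have h5 := three (e · z) (A ∪ R) v
    have h6 : up (e · z) (A ∪ R) v = (TP Y).card := by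
      simp only [not_le] at h4
      rw [h1] at h3
      simp only [up]
      omega
    refine ⟨k, v0, h6, ?_⟩
    replace hw : w ∈ A ∪ R ∧ e w z = v := hw
    beta_reduce
    by_cases c1 : w < z
    · rw [if_pos c1] at h2
      rw [if_pos ⟨w, hw.2, c1⟩, h2]
    · rw [if_neg c1] at h2
      rw [if_neg fun ⟨y, p, q⟩ => by
        have := e_lt (p.trans hw.2.symm) q.ne
        have := e_ord q.le (not_lt.mp c1)
        omega]
      omega
  · have q : (F.card : ℝ) ≤ (Hv (e · z) F v).card + 2 * t ^ 2 := by exact_mod_cast q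
    have : EE t (j + 1) (c + 1) l (Hv (e · z) F v).card * exp 1 ≤
        EE t (j + 1) (c + 1) (l + 1) F.card := by
      rw [EE, EE, ← exp_add, exp_le_exp, pow_succ (1 / 4 : ℝ)]
      push_cast
      nlinarith [mul_le_mul_of_nonneg_right q u0.le, mul_le_mul_of_nonneg_left u1 (sq_nonneg (t : ℝ))]
    nlinarith [add_one_le_exp 1, EE0 t (j + 1) (c + 1) l (Hv (e · z) F v).card]
  · have q : (F.card : ℝ) ≤ 4 * (Hv (e · z) F v).card := by exact_mod_cast q
    have : EE t (j + 1) c (l + 1) (Hv (e · z) F v).card ≤ EE t (j + 1) (c + 1) (l + 1) F.card := by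
      rw [EE, EE, exp_le_exp, pow_succ (1 / 4 : ℝ)]
      nlinarith [mul_le_mul_of_nonneg_right q u0.le]
    linarith [EE0 t (j + 1) c (l + 1) (Hv (e · z) F v).card]
  · rw [EE, EE, ← exp_add, ← exp_add, add_le_add_iff_left, exp_le_exp, pow_succ (1 / 4 : ℝ)]
    push_cast
    nlinarith [mul_le_mul_of_nonneg_right (fo v) u0.le, mul_le_mul_of_nonneg_left u1
      (show (0 : ℝ) ≤ 2 * (Hv (e · z) F v).card + 1 + lost (e · z) A F (e a z) v by positivity)]
  · have q : 2 * ((Hv (e · z) F v).card : ℝ) + 1 ≤ 2 * t ^ 2 := by exact_mod_cast q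
    rw [EE, EE, ← exp_add, add_le_add_iff_left, exp_le_exp, pow_succ (1 / 4 : ℝ)]
    push_cast
    nlinarith [mul_le_mul_of_nonneg_right (fo v) u0.le, mul_le_mul_of_nonneg_left u1
      (show (0 : ℝ) ≤ 2 * (Hv (e · z) F v).card + 1 + lost (e · z) A F (e a z) v by positivity)]
  · have q : 4 * ((Hv (e · z) F v).card : ℝ) ≤ F.card := by exact_mod_cast q.le
    rw [EE, EE, ← exp_add, add_le_add_iff_left, exp_le_exp, pow_succ (1 / 4 : ℝ)]
    push_cast
    nlinarith [mul_le_mul_of_nonneg_right (fo v) u0.le, mul_le_mul_of_nonneg_left u1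
      (show (0 : ℝ) ≤ 1 + lost (e · z) A F (e a z) v by positivity),
      mul_le_mul_of_nonneg_right q u0.le, show (0 : ℝ) ≤ F.card * (1 / 4) ^ c by positivity]
  · have q : (F.card : ℝ) ≤ 4 * h := by exact_mod_cast q
    have h1 : exp (h * (1 / 32 + 1 / 32)) ≤ 2 ^ h := by
      rw [exp_nat_mul, exp_add]
      gcongr
      nlinarith [e32, exp_pos (1 / 32)]
    have h2 : exp 7 ≤ EE t (j + 1) (c + 1) (l + 1) F.card * exp (h * (1 / 32 + 1 / 32)) := by
      rw [EE, ← exp_add, exp_le_exp, pow_succ (1 / 4 : ℝ)]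
      push_cast
      nlinarith [mul_le_mul_of_nonneg_left u1 (show (0 : ℝ) ≤ F.card by positivity)]
    rw [div_le_div_iff₀ (by positivity) (by norm_num)]
    nlinarith [add_one_le_exp 7, mul_le_mul_of_nonneg_left h1 E0.le]
  · have : 4 / (t : ℝ) ≤ 1 / 4 := by
      rw [div_le_div_iff₀ (by linarith) (by norm_num)]
      linarith
    simp only [BB, pow_succ]
    rw [show 16 / (t : ℝ) = 4 * (4 / t) by ring]
    nlinarith [show (0 : ℝ) ≤ (4 * (4 / t)) ^ c * (4 / t) by positivity,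
      mul_le_mul_of_nonneg_left this (show (0 : ℝ) ≤ (3 / 4) ^ l by positivity)]
  · have h1 : (2 : ℝ) ^ (2 * 25600 + 1) ≤ exp ((2 * 25600 + 1 : ℕ) * 1) := by
      rw [exp_nat_mul]
      gcongr
      linarith [add_one_le_exp 1]
    have h2 : (20 : ℝ) ≤ exp (5 / 2) * exp (5 / 2) := by
      have := quadratic_le_exp_of_nonneg (show (0 : ℝ) ≤ 5 / 2 by norm_num)
      nlinarith
    refine (mul_le_mul (mul_le_mul_of_nonneg_left h1 (exp_pos _).le) h2 (by norm_num)
      (by positivity)).trans ?_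
    rw [← exp_add, ← exp_add, ← exp_add, exp_le_one_iff]
    norm_num

lemma main {t : ℕ} (t0 : 176 ≤ t) (j : ℕ) : Mn t j := by
  induction j with
  | zero => exact Mn0 t
  | succ j ih =>
  intro A F Y c l d
  induction hm : F.card generalizing F with
  | zero =>
    refine (Ex_le fun _ _ => ind1 _).trans (le_add_of_nonneg_of_le (BB0 _ _ _) (one_le_exp ?_))
    simp only [Nat.cast_zero, zero_mul, sub_zero]
    positivity
  | succ m IH =>
  obtain ⟨M, hM⟩ : ∃ M, ∀ x ∈ A ∪ F, ∀ y ∈ A ∪ F, e x y ≤ M :=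
    ⟨((A ∪ F) ×ˢ (A ∪ F)).sup fun q => e q.1 q.2, fun x hx y hy =>
      le_sup (f := fun q : ℕ × ℕ => e q.1 q.2) (mk_mem_product hx hy)⟩
  obtain ⟨z, hz, k⟩ := heavy M (A ∪ F) F ((card_pos.mp (by omega)).mono subset_union_right)
    subset_union_right hM
  have E0 := EE0 t (j + 1) c l (m + 1)
  have k0 : ∀ G : Finset ℕ, z ∉ G → cnt (e · z) G 0 = 0 := fun G h =>
    card_eq_zero.mpr (filter_eq_empty_iff.mpr fun y hy q => h (e_zero.mp q ▸ hy))
  by_cases n : z ∈ F
  · have d' : Disjoint A (F.erase z) := d.mono_right (erase_subset _ _)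
    have hc : (F.erase z).card = m := by rw [card_erase_of_mem n, hm]; rfl
    have h1 := IH _ d' hc
    have h2 := An t0 ih z _ (insert z A) (F.erase z) Y c l rfl (by simpa using d')
      (mem_insert_self _ _) fun v => by
        rcases eq_or_ne v 0 with rfl | v0
        · simp [k0]
        refine (card_le_card (filter_subset_filter _ (erase_subset _ _))).trans ((k v v0).trans
          ((card_le_card ?_).trans (card_insert_le z _)))
        clear * -
        grind [Hv]
    have h3 : EE t (j + 1) c l m ≤ EE t (j + 1) c l (m + 1) * exp (1 / 32) := by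
      rw [EE, EE, ← exp_add, exp_le_exp]
      push_cast
      nlinarith [pow_le_one₀ (n := c) (show (0 : ℝ) ≤ 1 / 4 by norm_num) (by norm_num)]
    rw [← insert_erase n, Ex_ins (notMem_erase _ _)]
    simp only [insert_union, ← union_insert, hc] at h2
    nlinarith [mul_le_mul_of_nonneg_left e32 E0.le]
  · have := An t0 ih z _ A F Y c l rfl d ((mem_union.mp hz).resolve_right n) fun v => by
      rcases eq_or_ne v 0 with rfl | v0
      · simp [k0 F n]
      · exact (k v v0).trans (Nat.le_succ _)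
    rw [hm] at this
    linarith

end Pool.Agent.H.MP_e96620_co
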