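import Pool.Agent.H.MP_e96620_co.F

/-! Codes of similarity classes and the random colouring. -/

namespace Pool.Agent.H.MP_e96620_co
open Finset Classical Real

variable {x y j n : ℕ} {X Y : Finset ℕ} {f g : ℕ → ℕ}

lemma D_card (X : Finset ℕ) : (D X).card ≤ X.card := by
  induction X using Finset.induction_on_max with
  | empty => simp [D]
  | insert a s h ih =>
  rcases s.eq_empty_or_nonempty with rfl | n
  · simp [D]
  rw [card_insert_of_notMem fun k => (h a k).false]
  refine le_trans (card_le_card fun v hv => ?_) ((card_insert_le (e (s.max' n) a) (D s)).trans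
    (Nat.succ_le_succ ih))
  have k : ∀ b ∈ s, e b a ∈ insert (e (s.max' n) a) (D s) := fun b hb => by
    rcases (e_ord (le_max' s b hb) (h _ (max'_mem s n)).le).2.eq_or_lt with q | q
    · exact q ▸ mem_insert_self _ _
    · refine mem_insert_of_mem (mem_D.mpr ⟨b, hb, _, max'_mem s n, fun c => ?_, e_eq q⟩)
      rw [← c] at q
      exact q.false
  obtain ⟨x, hx, y, hy, n', rfl⟩ := mem_D.mp hv
  rw [mem_insert] at hx hy
  rcases hx with rfl | hx <;> rcases hy with rfl | hy
  · exact (n' rfl).elim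
  · exact e_comm y _ ▸ k y hy
  · exact k x hx
  · exact mem_insert_of_mem (mem_D.mpr ⟨x, hx, y, hy, n', rfl⟩)

def rk (X : Finset ℕ) (x : ℕ) : ℕ := (X.filter (· < x)).card

lemma rk_mono (X : Finset ℕ) : StrictMonoOn (rk X) X := fun a ha b _ l =>
  card_lt_card ((ssubset_iff_of_subset (by grind)).mpr ⟨a, mem_filter.mpr ⟨ha, l⟩, by simp⟩)

lemma rk_lt (h : x ∈ X) : rk X x < X.card :=
  card_lt_card ((ssubset_iff_of_subset (filter_subset _ _)).mpr ⟨x, h, by simp⟩)

lemma rk_image (m : StrictMonoOn f X) (h : x ∈ X) : rk (X.image f) (f x) = rk X x := by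
  rw [rk, filter_image, card_image_of_injOn (m.injOn.mono (coe_subset.mpr (filter_subset _ _)))]
  exact congrArg card (filter_congr fun y hy => m.lt_iff_lt hy h)

noncomputable def cd (X : Finset ℕ) : Finset (ℕ × ℕ × ℕ) :=
  (X ×ˢ X).image fun q => (rk X q.1, rk X q.2, rk (D X) (e q.1 q.2))

noncomputable def code : ℕ → Finset ℕ → ℕ
  | 0, X => Encodable.encode X
  | j + 1, X => Nat.pair (Encodable.encode (cd X)) (code j (D X))

lemma Sim.code (h : Sim j f X) : code j (X.image f) = code j X := by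
  induction j generalizing f X with
  | zero => rw [image_congr (g := id) h, image_id]
  | succ j ih =>
  obtain ⟨m, g, h1, h2⟩ := h
  have : cd (X.image f) = cd X := by
    rw [cd, ← prodMap_image_product, image_image]
    refine image_congr fun q hq => ?_
    obtain ⟨ha, hb⟩ := mem_product.mp hq
    simp only [Function.comp, Prod.map, rk_image m ha, rk_image m hb, D_image m h1]
    by_cases n : q.1 = q.2
    · simp [n, e_zero.mpr rfl, rk]
    · rw [h1 _ ha _ hb n, rk_image h2.mono (mem_D.mpr ⟨_, ha, _, hb, n, rfl⟩)]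
  simp only [MP_e96620_co.code, this, D_image m h1, ih h2]

lemma rel_of (h : code j X = code j Y) : Rel j X Y := by
  induction j generalizing X Y with
  | zero => exact ⟨id, fun _ _ => rfl, image_id.trans (Encodable.encode_injective h)⟩
  | succ j ih =>
  obtain ⟨h1, h2⟩ := Nat.pair_eq_pair.mp h
  replace h1 := Encodable.encode_injective h1
  obtain ⟨g, h2, h3⟩ := ih h2
  have k : ∀ {X Y : Finset ℕ}, cd X = cd Y → ∀ a ∈ X, ∀ b ∈ X, ∃ a' ∈ Y, ∃ b' ∈ Y,
      rk Y a' = rk X a ∧ rk Y b' = rk X b ∧ rk (D Y) (e a' b') = rk (D X) (e a b) :=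
    fun {X Y} h a ha b hb => by
      have : _ ∈ cd X := mem_image_of_mem _ (mk_mem_product ha hb)
      obtain ⟨q, hq, k⟩ := mem_image.mp (h ▸ this)
      simp only [Prod.mk.injEq] at k
      exact ⟨_, (mem_product.mp hq).1, _, (mem_product.mp hq).2, k⟩
  choose! f hf hf' using show ∀ a ∈ X, ∃ a' ∈ Y, rk Y a' = rk X a from fun a ha =>
    (k h1 a ha a ha).imp fun _ ⟨p, _, _, q, _⟩ => ⟨p, q⟩
  have m : StrictMonoOn f X := fun a ha b hb l => ((rk_mono Y).lt_iff_lt (hf a ha) (hf b hb)).mp
    (by rw [hf' a ha, hf' b hb]; exact rk_mono X ha hb l)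
  refine ⟨f, ⟨m, g, fun a ha b hb n => ?_, h2⟩, Subset.antisymm (image_subset_iff.mpr hf)
    fun b hb => ?_⟩
  · obtain ⟨a', ha', b', hb', p, q, r⟩ := k h1 a ha b hb
    rw [(rk_mono Y).injOn ha' (hf a ha) (p.trans (hf' a ha).symm),
      (rk_mono Y).injOn hb' (hf b hb) (q.trans (hf' b hb).symm)] at r
    have s := mem_D.mpr ⟨a, ha, b, hb, n, rfl⟩
    rw [← rk_image h2.mono s, h3] at r
    exact (rk_mono _).injOn (mem_D.mpr ⟨_, hf a ha, _, hf b hb, m.injOn.ne ha hb n, rfl⟩)
      (h3 ▸ mem_image_of_mem _ s) r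
  · obtain ⟨a, ha, -, -, p, -⟩ := k h1.symm b hb b hb
    exact mem_image.mpr ⟨a, ha, (rk_mono Y).injOn (hf a ha) hb ((hf' a ha).trans p)⟩

def UU (n j : ℕ) : Finset (Finset ℕ) :=
  (range ((fun n : ℕ => 2 ^ n)^[j] 1 + 2)).powerset.filter (·.card ≤ n)

lemma count (n j : ℕ) : ((UU n j).image (code j)).card ≤ 8 * (2 ^ n ^ 3) ^ j := by
  induction j with
  | zero => exact card_image_le.trans ((card_filter_le _ _).trans (by simp))
  | succ j ih =>
  have t : 1 ≤ (fun n : ℕ => 2 ^ n)^[j] 1 := by
    cases j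
    · simp
    · rw [Function.iterate_succ_apply']
      exact Nat.one_le_two_pow
  refine (card_le_card (t := ((range n ×ˢ range n ×ˢ range n).powerset ×ˢ (UU n j).image
    (code j)).image fun q => Nat.pair (Encodable.encode q.1) q.2) (image_subset_iff.mpr
      fun X hX => ?_)).trans (card_image_le.trans ?_)
  · simp only [UU, mem_filter, mem_powerset, Function.iterate_succ_apply'] at hX
    have := D_card X
    refine mem_image.mpr ⟨(cd X, code j (D X)), mk_mem_product (mem_powerset.mpr
      (image_subset_iff.mpr fun q hq => ?_)) (mem_image_of_mem _ (mem_filter.mpr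
        ⟨mem_powerset.mpr fun v hv => ?_, by omega⟩)), rfl⟩
    · obtain ⟨ha, hb⟩ := mem_product.mp hq
      have := rk_lt ha
      have := rk_lt hb
      simp only [mem_product, mem_range]
      refine ⟨by omega, by omega, ?_⟩
      by_cases c : q.1 = q.2
      · simp only [c, e_zero.mpr rfl, rk, not_lt_zero, filter_false, card_empty]
        omega
      · have := rk_lt (mem_D.mpr ⟨_, ha, _, hb, c, rfl⟩)
        omega
    · obtain ⟨a, ha, b, hb, -, rfl⟩ := mem_D.mp hv
      generalize (fun n : ℕ => 2 ^ n)^[j] 1 = T at *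
      have : 2 ^ 1 ≤ 2 ^ T := Nat.pow_le_pow_right two_pos t
      have := mem_range.mp (hX.1 ha)
      have := mem_range.mp (hX.1 hb)
      exact mem_range.mpr (Nat.lt_succ_of_le (e_le.mpr ((Nat.div_eq_of_lt (by omega)).trans
        (Nat.div_eq_of_lt (by omega)).symm)))
  · rw [card_product, card_powerset, card_product, card_product, card_range]
    exact (Nat.mul_le_mul_left _ ih).trans_eq (by ring)

noncomputable def sg (R : Finset ℕ) (c : ℕ) : ℝ := if c ∈ R then 1 else -1

lemma mgf (C : Finset ℕ) (a : ℕ → ℝ) :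
    Ex C (fun R => exp (∑ c ∈ C, a c * sg R c)) ≤ exp ((∑ c ∈ C, a c ^ 2) / 2) := by
  induction C using Finset.induction_on with
  | empty => simp [Ex]
  | insert x C n ih =>
  have h : ∀ (u : ℝ) (φ : Finset ℕ → Finset ℕ), (∀ R ⊆ C, sg (φ R) x = u ∧ ∀ c ∈ C, sg (φ R) c = sg R c) →
      Ex C (fun R => exp (∑ c ∈ insert x C, a c * sg (φ R) c)) ≤
        exp (a x * u) * exp ((∑ c ∈ C, a c ^ 2) / 2) := fun u φ h =>
    (Ex_mono fun R hR => by
      rw [sum_insert n, exp_add, (h R hR).1, sum_congr rfl fun c hc => by rw [(h R hR).2 c hc]]).trans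
      ((Ex_mul _).trans_le (mul_le_mul_of_nonneg_left ih (exp_pos _).le))
  have h1 := h (-1) id fun R hR => ⟨if_neg fun k => n (hR k), fun _ _ => rfl⟩
  have h2 := h 1 (insert x) fun R hR => ⟨if_pos (mem_insert_self _ _), fun c hc => by
    simp [sg, show c ≠ x from fun k => n (k ▸ hc)]⟩
  have := mul_le_mul_of_nonneg_right (cosh_le_exp_half_sq (a x)) (exp_pos ((∑ c ∈ C, a c ^ 2) / 2)).le
  rw [Ex_ins n, sum_insert n, add_div (a x ^ 2), exp_add]
  simp only [cosh_eq, mul_neg, mul_one, id] at *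
  linarith

lemma hoef (C : Finset ℕ) (a : ℕ → ℝ) {x V : ℝ} (x0 : 0 ≤ x) (V0 : 0 < V) (h : ∑ c ∈ C, a c ^ 2 ≤ V) :
    Ex C (fun R => ind (x < |∑ c ∈ C, a c * sg R c|)) ≤ 2 * exp (-(x ^ 2 / (2 * V))) := by
  have k : ∀ u : ℝ, u ^ 2 = (x / V) ^ 2 → Ex C (fun R => exp (-(x ^ 2 / V)) *
      exp (u * ∑ c ∈ C, a c * sg R c)) ≤ exp (-(x ^ 2 / (2 * V))) := fun u hu => by
    have := mgf C fun c => u * a c
    simp only [mul_assoc, mul_pow, ← mul_sum, hu] at this
    rw [Ex_mul]
    refine (mul_le_mul_of_nonneg_left this (exp_pos _).le).trans ?_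
    rw [← exp_add, exp_le_exp]
    have : (x / V) ^ 2 * V = x ^ 2 / V := by field_simp
    have : x ^ 2 / V = 2 * (x ^ 2 / (2 * V)) := by field_simp
    nlinarith [mul_le_mul_of_nonneg_left h (sq_nonneg (x / V))]
  have := add_le_add (k _ rfl) (k _ (neg_sq _))
  rw [← Ex_add, ← two_mul] at this
  refine (Ex_mono fun R _ => ?_).trans this
  unfold ind
  split_ifs with c
  swap
  · positivity
  have q : ∀ w, x < w → 1 ≤ exp (-(x ^ 2 / V)) * exp (x / V * w) := fun w hw => by
    rw [← exp_add, one_le_exp_iff, sq, mul_comm x, mul_div_assoc]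
    nlinarith [div_nonneg x0 V0.le]
  rcases lt_abs.mp c with c | c
  · exact le_add_of_le_of_nonneg (q _ c) (by positivity)
  · exact le_add_of_nonneg_of_le (by positivity) (by simpa using q _ c)

lemma col {k t j c l : ℕ} {δ : ℝ} (t0 : 176 ≤ t) (k0 : 0 < k) (hj : j ≤ k) (δ0 : 0 < δ)
    (h : (BB t c l + EE t j c l (2 * k)) * (60 * k ^ 5) ≤ δ ^ 2) : ∃ R : Finset ℕ, ∀ S ∈ UU (2 * k) j,
      S.card = 2 * k → |∑ T ∈ S.powersetCard k, sg R (code j T)| ≤ δ * (2 * k).choose k := by
  set U := (UU (2 * k) j).filter (·.card = 2 * k)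
  set C := (UU (2 * k) j).image (code j)
  set P := BB t c l + EE t j c l (2 * k) with hP
  have P0 : 0 < P := add_pos_of_nonneg_of_pos (BB0 _ _ _) (EE0 _ _ _ _ _)
  have k1 : (1 : ℝ) ≤ k := by exact_mod_cast k0
  have c0 : (0 : ℝ) < (2 * k).choose k := by exact_mod_cast k.centralBinom_pos
  have one : ∀ S ∈ U, Ex C (fun R => ind (δ * (2 * k).choose k <
      |∑ T ∈ S.powersetCard k, sg R (code j T)|)) ≤ 2 * exp (-(15 * k ^ 4)) := fun S hS => by
    simp only [U, UU, mem_filter, mem_powerset] at hS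
    have mp : ∀ T ∈ S.powersetCard k, code j T ∈ C := fun T hT => mem_image_of_mem _ (by
      rw [mem_powersetCard] at hT
      exact mem_filter.mpr ⟨mem_powerset.mpr (hT.1.trans hS.1.1), by omega⟩)
    let a : ℕ → ℝ := fun c => ((S.powersetCard k).filter fun T => code j T = c).card
    have a1 : ∀ c, a c ≤ 4 ^ k * P := fun b => by
      rcases ((S.powersetCard k).filter fun T => code j T = b).eq_empty_or_nonempty with q | ⟨Y, q⟩
      · simp only [a, q, card_empty, Nat.cast_zero]
        positivity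
      have := main t0 j ∅ S Y c l (disjoint_empty_left _)
      rw [Ex, hS.2, div_le_iff₀ (by positivity), pow_mul, mul_comm] at this
      refine le_trans ?_ (this.trans_eq (by norm_num [hP]))
      simp only [ind, sum_boole, a, Nat.cast_le]
      exact card_le_card fun T hT => by
        simp only [mem_filter, mem_powersetCard, mem_powerset, empty_union] at *
        exact ⟨hT.1.1, rel_of (hT.2.trans q.2.symm)⟩
    have a2 : ∑ c ∈ C, a c = (2 * k).choose k := by
      simp only [a]
      rw [← Nat.cast_sum, ← card_eq_sum_card_fiberwise mp, card_powersetCard, hS.2]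
    have := hoef C a (x := δ * (2 * k).choose k) (V := 4 ^ k * P * (2 * k).choose k) (by positivity)
      (by positivity) (by
        rw [← a2, mul_sum]
        exact sum_le_sum fun c _ => by
          rw [sq]
          exact mul_le_mul_of_nonneg_right (a1 c) (Nat.cast_nonneg _))
    refine le_trans (Ex_mono fun R _ => ?_) (this.trans ?_)
    · rw [← sum_fiberwise_of_maps_to mp]
      refine (congrArg (fun w => ind (_ < |w|)) (sum_congr rfl fun c _ => ?_)).le
      rw [sum_congr rfl fun T hT => by rw [(mem_filter.mp hT).2], sum_const, nsmul_eq_mul]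
    · have : (4 : ℝ) ^ k ≤ 2 * k * (2 * k).choose k := by
        exact_mod_cast Nat.four_pow_le_two_mul_self_mul_centralBinom k k0
      gcongr
      rw [le_div_iff₀ (by positivity)]
      calc _ ≤ 15 * (k : ℝ) ^ 4 * (2 * (2 * k * (2 * k).choose k * P * (2 * k).choose k)) := by gcongr
        _ = P * (60 * k ^ 5) * (2 * k).choose k ^ 2 := by ring
        _ ≤ _ := by rw [mul_pow]; gcongr
  have ct : ((U.image (code j)).card : ℝ) ≤ 8 * exp (8 * k ^ 4) := by
    have : (U.image (code j)).card ≤ 8 * 2 ^ (8 * k ^ 4) :=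
      (card_le_card (image_subset_image (filter_subset _ _))).trans ((count _ _).trans (by
        rw [← pow_mul]
        exact Nat.mul_le_mul_left _ (Nat.pow_le_pow_right two_pos
          ((Nat.mul_le_mul_left _ hj).trans_eq (by ring)))))
    refine (Nat.cast_le.mpr this).trans ?_
    rw [show (8 : ℝ) * k ^ 4 = (8 * k ^ 4 : ℕ) * 1 by simp, exp_nat_mul]
    push_cast
    gcongr
    linarith [add_one_le_exp 1]
  choose! rep r1 r2 using show ∀ b ∈ U.image (code j), ∃ S ∈ U, code j S = b from
    fun b hb => mem_image.mp hb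
  by_contra! n
  have : 1 ≤ Ex C fun R => ∑ b ∈ U.image (code j), ind (δ * (2 * k).choose k <
      |∑ T ∈ (rep b).powersetCard k, sg R (code j T)|) := (Ex_const 1).ge.trans (Ex_mono fun R _ => by
    obtain ⟨S, h1, h2, h3⟩ := n R
    have hS := mem_image_of_mem (code j) (show S ∈ U from mem_filter.mpr ⟨h1, h2⟩)
    refine le_trans (if_pos ?_).ge (single_le_sum (fun _ _ => ind0 _) hS)
    obtain ⟨f, p, q⟩ := rel_of (r2 _ hS).symm
    have i := p.mono.injOn
    rwa [← q, sum_nbij' (t := S.powersetCard k) (g := fun T => sg R (code j T))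
      (fun T => S.filter (f · ∈ T)) (·.image f)]
    all_goals simp only [mem_powersetCard]
    · intro T hT
      refine ⟨filter_subset _ _, ?_⟩
      rw [← card_image_of_injOn (i.mono (coe_subset.mpr (filter_subset _ _))), ← hT.2]
      exact congrArg card (by clear * - hT; grind)
    · exact fun T hT => ⟨image_subset_image hT.1, (card_image_of_injOn (i.mono hT.1)).trans hT.2⟩
    · intro T hT
      clear * - hT
      grind
    · intro T hT
      clear * - hT i
      grind [Set.InjOn]
    · intro T hT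
      rw [← (p.sub (filter_subset _ _)).code]
      exact congrArg (fun w => sg R (code j w)) (by clear * - hT; grind))
  rw [Ex_sum] at this
  have := this.trans ((sum_le_card_nsmul _ _ _ fun b hb => one _ (r1 b hb)).trans
    ((nsmul_eq_mul _ _).trans_le (mul_le_mul_of_nonneg_right ct (by positivity))))
  rw [mul_mul_mul_comm, ← exp_add] at this
  have h1 : exp (8 * k ^ 4 + -(15 * k ^ 4)) * (exp 3 * exp 3) ≤ 1 := by
    rw [← exp_add, ← exp_add, exp_le_one_iff]
    nlinarith [one_le_pow₀ (n := 4) k1]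
  have h2 : 17 ≤ exp 3 * exp 3 := by
    have := quadratic_le_exp_of_nonneg (show (0 : ℝ) ≤ 3 by norm_num)
    nlinarith
  nlinarith [exp_pos (8 * (k : ℝ) ^ 4 + -(15 * k ^ 4))]

end Pool.Agent.H.MP_e96620_co
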